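import Pool.Agent.Y249.SU.Raj

/-!
# A multiplier that vanishes on half of the circle
-/

set_option autoImplicit false

open MeasureTheory Filter Topology

namespace Pool.Agent.Y249.SU

/-- The Fourier coefficients on the unit interval. -/
noncomputable def fc (g : ℝ → ℂ) (n : ℤ) : ℂ := fourierCoeffOn (zero_lt_one (α := ℝ)) g n

theorem fc_eq (g : ℝ → ℂ) (n : ℤ) : fc g n = ∫ x in (0 : ℝ)..1, E (-n) x * g x := by
  unfold fc
  rw [fourierCoeffOn_eq_integral]
  simp only [sub_zero, div_one, one_smul, smul_eq_mul]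
  apply intervalIntegral.integral_congr
  intro x _
  simp only []
  rw [fourier_coe_apply]
  congr 1
  rw [E]
  congr 1
  push_cast
  ring

theorem norm_fc_le {g : ℝ → ℂ} {C : ℝ} (hC : ∀ x, ‖g x‖ ≤ C) (n : ℤ) : ‖fc g n‖ ≤ C := by
  rw [fc_eq]
  have := intervalIntegral.norm_integral_le_of_norm_le_const (a := (0 : ℝ)) (b := 1) (C := C)
    (f := fun x => E (-n) x * g x) (fun x _ => by
      rw [norm_mul, norm_E, one_mul]
      exact hC x)
  simpa using this

theorem fc_deriv {g : ℝ → ℂ} (hg : ContDiff ℝ 1 g) (h0 : g 0 = 0) (h1 : g 1 = 0) {n : ℤ}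
    (hn : n ≠ 0) : ‖fc g n‖ ≤ ‖fc (deriv g) n‖ / |(n : ℝ)| := by
  have hd : ∀ x, HasDerivAt g (deriv g x) x := fun x =>
    (hg.differentiable (by norm_num) x).hasDerivAt
  have hc : Continuous (deriv g) := hg.continuous_deriv (by norm_num)
  have h2 := fourierCoeffOn_of_hasDerivAt (zero_lt_one (α := ℝ)) (f := g) (f' := deriv g) hn
    (fun x _ => hd x) (hc.intervalIntegrable _ _)
  unfold fc
  rw [h2, h0, h1]
  simp only [sub_self, mul_zero, zero_sub, Complex.ofReal_one, Complex.ofReal_zero, sub_zero, one_mul,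
    norm_mul, norm_neg, norm_div, norm_one, Complex.norm_I, mul_one]
  have h3 : ‖(2 : ℂ)‖ = 2 := by simp
  have h4 : ‖(Real.pi : ℂ)‖ = Real.pi := by
    rw [Complex.norm_real, Real.norm_of_nonneg Real.pi_pos.le]
  have h5 : ‖(n : ℂ)‖ = |(n : ℝ)| := by
    rw [Complex.norm_intCast]
  rw [h3, h4, h5, div_eq_mul_one_div (‖fourierCoeffOn _ (deriv g) n‖), mul_comm]
  apply mul_le_mul_of_nonneg_left _ (norm_nonneg _)
  have hn' : 0 < |(n : ℝ)| := abs_pos.mpr (Int.cast_ne_zero.mpr hn)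
  apply one_div_le_one_div_of_le hn'
  have := Real.pi_gt_three
  nlinarith

/-- The smooth functions supported in `[5/8, 7/8]`. -/
def Sm (g : ℝ → ℂ) : Prop := ContDiff ℝ ((⊤ : ℕ∞) : WithTop ℕ∞) g ∧ ∀ x, x ∉ Set.Icc (5/8 : ℝ) (7/8) → g x = 0

theorem Sm.deriv {g : ℝ → ℂ} (hg : Sm g) : Sm (deriv g) := by
  refine ⟨?_, fun x hx => ?_⟩
  · have h1 := hg.1
    rw [show ((⊤ : ℕ∞) : WithTop ℕ∞) = ((⊤ : ℕ∞) : WithTop ℕ∞) + 1 from rfl] at h1
    rw [contDiff_succ_iff_deriv] at h1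
    exact h1.2.2
  · have hopen : IsOpen (Set.Icc (5/8 : ℝ) (7/8))ᶜ := isClosed_Icc.isOpen_compl
    have h2 : g =ᶠ[𝓝 x] fun _ => 0 := by
      filter_upwards [hopen.mem_nhds hx] with y hy
      exact hg.2 y hy
    rw [h2.deriv_eq]
    simp

theorem Sm.bounded {g : ℝ → ℂ} (hg : Sm g) : ∃ C, ∀ x, ‖g x‖ ≤ C := by
  obtain ⟨C, hC⟩ := isCompact_Icc.exists_bound_of_continuousOn (s := Set.Icc (5/8 : ℝ) (7/8))
    hg.1.continuous.continuousOn
  refine ⟨max C 0, fun x => ?_⟩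
  by_cases hx : x ∈ Set.Icc (5/8 : ℝ) (7/8)
  · exact (hC x hx).trans (le_max_left _ _)
  · rw [hg.2 x hx, norm_zero]
    exact le_max_right _ _

theorem Sm.zero {g : ℝ → ℂ} (hg : Sm g) : g 0 = 0 := hg.2 0 (by
  intro h
  have := h.1
  norm_num at this)

theorem Sm.one {g : ℝ → ℂ} (hg : Sm g) : g 1 = 0 := hg.2 1 (by
  intro h
  have := h.2
  norm_num at this)

theorem Sm.decay {g : ℝ → ℂ} (hg : Sm g) : ∃ C, 0 ≤ C ∧ ∀ n : ℤ, n ≠ 0 → ‖fc g n‖ ≤ C / |(n : ℝ)| ^ 3 := by
  obtain ⟨C, hC⟩ := hg.deriv.deriv.deriv.bounded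
  have hC0 : 0 ≤ C := (norm_nonneg _).trans (hC 0)
  refine ⟨C, hC0, fun n hn => ?_⟩
  have hn' : 0 < |(n : ℝ)| := abs_pos.mpr (Int.cast_ne_zero.mpr hn)
  have key : ∀ {f : ℝ → ℂ}, Sm f → ‖fc f n‖ ≤ ‖fc (_root_.deriv f) n‖ / |(n : ℝ)| := fun hf =>
    fc_deriv (hf.1.of_le (by exact_mod_cast le_top)) hf.zero hf.one hn
  have h1 := key hg
  have h2 := key hg.deriv
  have h3 := key hg.deriv.deriv
  have h4 := norm_fc_le hC n
  calc ‖fc g n‖ ≤ (((C) / |(n : ℝ)|) / |(n : ℝ)|) / |(n : ℝ)| := by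
        refine h1.trans ?_
        gcongr
        refine h2.trans ?_
        gcongr
        refine h3.trans ?_
        gcongr
    _ = C / |(n : ℝ)| ^ 3 := by field_simp

theorem Sm.summable {g : ℝ → ℂ} (hg : Sm g) : Summable fun j : ℤ => (1 + |(j : ℝ)|) * ‖fc g j‖ := by
  obtain ⟨C, hC0, hC⟩ := hg.decay
  have hs : Summable fun j : ℤ => 2 * C * (1 / (j : ℝ) ^ 2) :=
    (Real.summable_one_div_int_pow.mpr (by norm_num)).mul_left _
  have hs2 : Summable fun j : ℤ => if j = 0 then ‖fc g 0‖ else 0 :=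
    (hasSum_ite_eq 0 ‖fc g 0‖).summable
  refine Summable.of_nonneg_of_le (fun _ => by positivity) (fun j => ?_) (hs.add hs2)
  by_cases hj : j = 0
  · subst hj
    simp
  · rw [if_neg hj, add_zero]
    have hn' : 1 ≤ |(j : ℝ)| := by
      have := Int.one_le_abs hj
      exact_mod_cast this
    have h1 := hC j hj
    calc (1 + |(j : ℝ)|) * ‖fc g j‖ ≤ (2 * |(j : ℝ)|) * (C / |(j : ℝ)| ^ 3) := by
          apply mul_le_mul _ h1 (norm_nonneg _) (by positivity)
          linarith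
      _ = 2 * C * (1 / (j : ℝ) ^ 2) := by
          rw [← sq_abs (j : ℝ)]
          have : |(j : ℝ)| ≠ 0 := by positivity
          field_simp

theorem Sm.lam_eq {g : ℝ → ℂ} (hg : Sm g) {x : ℝ} (hx : x ∈ Set.Ico (0 : ℝ) 1) :
    lam (fc g) x = g x := by
  have hcont : Continuous (AddCircle.liftIco (1 : ℝ) 0 g) :=
    AddCircle.liftIco_zero_continuous (by rw [hg.zero, hg.one]) hg.1.continuous.continuousOn
  set G : C(AddCircle (1 : ℝ), ℂ) := ⟨AddCircle.liftIco (1 : ℝ) 0 g, hcont⟩ with hG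
  have hcoef : ∀ n, fourierCoeff (G : AddCircle (1 : ℝ) → ℂ) n = fc g n := by
    intro n
    have := fourierCoeff_liftIco_eq (T := (1 : ℝ)) (a := 0) g n
    rw [fc_eq]
    rw [show (G : AddCircle (1 : ℝ) → ℂ) = AddCircle.liftIco (1 : ℝ) 0 g from rfl, this]
    rw [fourierCoeffOn_eq_integral]
    simp only [zero_add, sub_zero, div_one, one_smul, smul_eq_mul]
    apply intervalIntegral.integral_congr
    intro x _
    simp only []
    rw [fourier_coe_apply]
    congr 1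
    rw [E]
    congr 1
    push_cast
    ring
  have hsum : Summable (fourierCoeff (G : AddCircle (1 : ℝ) → ℂ)) := by
    have : fourierCoeff (G : AddCircle (1 : ℝ) → ℂ) = fc g := funext hcoef
    rw [this]
    exact (summable_norm_gamma hg.summable).of_norm
  have h1 := has_pointwise_sum_fourier_series_of_summable hsum (x : AddCircle (1 : ℝ))
  have h2 : G (x : AddCircle (1 : ℝ)) = g x := by
    rw [show G (x : AddCircle (1 : ℝ)) = AddCircle.liftIco (1 : ℝ) 0 g x from rfl]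
    exact AddCircle.liftIco_zero_coe_apply hx
  rw [h2] at h1
  rw [← h1.tsum_eq, lam]
  apply tsum_congr
  intro n
  rw [hcoef, smul_eq_mul, fourier_coe_apply]
  congr 1
  rw [E]
  congr 1
  push_cast
  ring

theorem exists_gamma : ∃ γ : ℤ → ℂ, (Summable fun j : ℤ => (1 + |(j : ℝ)|) * ‖γ j‖) ∧ γ 0 ≠ 0 ∧
    ∀ x ∈ Set.Icc (0 : ℝ) (1 / 2), lam γ x = 0 := by
  let f : ContDiffBump (3 / 4 : ℝ) := ⟨1 / 16, 1 / 8, by norm_num, by norm_num⟩
  have hsm : Sm (fun x => ((f x : ℝ) : ℂ)) := by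
    refine ⟨?_, fun x hx => ?_⟩
    · exact Complex.ofRealCLM.contDiff.comp f.contDiff
    · have : f x = 0 := by
        apply f.zero_of_le_dist
        rw [Real.dist_eq]
        by_contra hcon
        push Not at hcon
        apply hx
        have h8 : f.rOut = 1 / 8 := rfl
        rw [h8, abs_lt] at hcon
        constructor <;> linarith [hcon.1, hcon.2]
      simp [this]
  refine ⟨fc (fun x => ((f x : ℝ) : ℂ)), hsm.summable, ?_, fun x hx => ?_⟩
  · rw [fc_eq]
    have h1 : ∀ x : ℝ, E (-0) x * ((f x : ℝ) : ℂ) = ((f x : ℝ) : ℂ) := by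
      intro x
      rw [neg_zero, E_zero, one_mul]
    simp only [h1]
    rw [intervalIntegral.integral_ofReal]
    have hpos : 0 < ∫ x in (0 : ℝ)..1, f x := by
      apply intervalIntegral.integral_pos (by norm_num) f.continuous.continuousOn
      · intro x _
        exact f.nonneg
      · refine ⟨3 / 4, by constructor <;> norm_num, ?_⟩
        rw [f.one_of_mem_closedBall (Metric.mem_closedBall_self (by norm_num [f]))]
        exact one_pos
    exact Complex.ofReal_ne_zero.mpr hpos.ne'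
  · rw [hsm.lam_eq ⟨hx.1, by linarith [hx.2]⟩]
    apply hsm.2
    intro h
    have := h.1
    linarith [hx.2]

end Pool.Agent.Y249.SU
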