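import Pool.Agent.Y249.SU.Norm
import Pool.Agent.Y249.SU.Bump
import Pool.Agent.H534R3.UD

/-!
# Absolutely normal numbers in sets of uniqueness, for every gauge
-/

set_option autoImplicit false

open MeasureTheory Filter Topology
open scoped ENNReal

namespace Pool.Agent.Y249.SU

/-! ### Blocks of digits -/

/-- The integer with given digits. -/
def V (b : ℕ) (w : ℕ → ℤ) : ℕ → ℤ
  | 0 => 0
  | k + 1 => b * V b w k + w k

theorem digit_iff {b : ℕ} (hb : 2 ≤ b) {y : ℝ} (hy0 : 0 ≤ y) (hy1 : y < 1) {w : ℕ → ℤ}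
    (hw : ∀ j, 0 ≤ w j ∧ w j < b) (k : ℕ) :
    (∀ j < k, ⌊y * (b : ℝ) ^ (j + 1)⌋ % (b : ℤ) = w j) ↔ ⌊y * (b : ℝ) ^ k⌋ = V b w k := by
  induction k with
  | zero =>
    simp only [Nat.not_lt_zero, IsEmpty.forall_iff, implies_true, pow_zero, mul_one, V, true_iff]
    rw [Int.floor_eq_zero_iff]
    exact ⟨hy0, hy1⟩
  | succ k ih =>
    have h1 : (∀ j < k + 1, ⌊y * (b : ℝ) ^ (j + 1)⌋ % (b : ℤ) = w j) ↔
        (∀ j < k, ⌊y * (b : ℝ) ^ (j + 1)⌋ % (b : ℤ) = w j) ∧
          ⌊y * (b : ℝ) ^ (k + 1)⌋ % (b : ℤ) = w k := by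
      constructor
      · intro h
        exact ⟨fun j hj => h j (by omega), h k (by omega)⟩
      · rintro ⟨h2, h3⟩ j hj
        rcases Nat.lt_succ_iff_lt_or_eq.mp hj with h4 | h4
        · exact h2 j h4
        · rw [h4]
          exact h3
    rw [h1, ih]
    have h2 : ⌊y * (b : ℝ) ^ (k + 1)⌋ / (b : ℤ) = ⌊y * (b : ℝ) ^ k⌋ := by
      rw [pow_succ, ← mul_assoc]
      exact Int.mul_natCast_floor_div_cancel (by omega) _
    have h3 := Int.emod_add_mul_ediv ⌊y * (b : ℝ) ^ (k + 1)⌋ (b : ℤ)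
    have hb' : (0 : ℤ) < b := by omega
    rw [← h2]
    simp only [V]
    constructor
    · rintro ⟨h4, h5⟩
      rw [h4, h5] at h3
      linarith
    · intro h4
      have h5 : (⌊y * (b : ℝ) ^ (k + 1)⌋) / (b : ℤ) = V b w k := by
        rw [h4, add_comm, Int.add_mul_ediv_left _ _ hb'.ne', Int.ediv_eq_zero_of_lt (hw k).1 (hw k).2,
          zero_add]
      refine ⟨h5, ?_⟩
      rw [h4, add_comm, Int.add_mul_emod_self_left, Int.emod_eq_of_lt (hw k).1 (hw k).2]

theorem V_nonneg {b : ℕ} {w : ℕ → ℤ} (hw : ∀ j, 0 ≤ w j ∧ w j < b) (k : ℕ) : 0 ≤ V b w k := by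
  induction k with
  | zero => exact le_refl _
  | succ k ih =>
    simp only [V]
    have := (hw k).1
    positivity

theorem V_lt {b : ℕ} {w : ℕ → ℤ} (hw : ∀ j, 0 ≤ w j ∧ w j < b) (k : ℕ) : V b w k + 1 ≤ (b : ℤ) ^ k := by
  induction k with
  | zero => simp [V]
  | succ k ih =>
    simp only [V]
    have h1 := (hw k).2
    have h2 : (b : ℤ) * (V b w k + 1) ≤ b * (b : ℤ) ^ k := mul_le_mul_of_nonneg_left ih (by positivity)
    rw [pow_succ]
    nlinarith

theorem floor_shift {b : ℕ} (x : ℝ) (i j : ℕ) :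
    ⌊x * (b : ℝ) ^ (i + j + 1)⌋ % (b : ℤ) = ⌊Int.fract (x * (b : ℝ) ^ i) * (b : ℝ) ^ (j + 1)⌋ % (b : ℤ) := by
  have h1 : x * (b : ℝ) ^ (i + j + 1) =
      Int.fract (x * (b : ℝ) ^ i) * (b : ℝ) ^ (j + 1) + ((⌊x * (b : ℝ) ^ i⌋ * (b : ℤ) ^ (j + 1) : ℤ) : ℝ) := by
    have h2 := Int.fract_add_floor (x * (b : ℝ) ^ i)
    have h3 : x * (b : ℝ) ^ (i + j + 1) = (x * (b : ℝ) ^ i) * (b : ℝ) ^ (j + 1) := by
      rw [add_assoc, pow_add]
      ring
    rw [h3]
    push_cast
    rw [← add_mul, h2]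
  rw [h1, Int.floor_add_intCast]
  have h2 : ⌊x * (b : ℝ) ^ i⌋ * (b : ℤ) ^ (j + 1) = (⌊x * (b : ℝ) ^ i⌋ * (b : ℤ) ^ j) * b := by
    rw [pow_succ]
    ring
  rw [h2, Int.add_mul_emod_self_right]

/-- Uniform distribution of `x b ^ n` implies the normality of the blocks. -/
theorem block_tendsto {b : ℕ} (hb : 2 ≤ b) {x : ℝ}
    (hx : H534R3.UDist.UD (fun n => x * (b : ℝ) ^ n)) (k : ℕ) (w : Fin k → ℤ)
    (hw : ∀ j : Fin k, 0 ≤ w j ∧ w j < (b : ℤ)) :
    Tendsto (fun N : ℕ =>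
      ((((Finset.range N).filter (fun i : ℕ =>
        ∀ j : Fin k, ⌊x * (b : ℝ) ^ (i + j.val + 1)⌋ % (b : ℤ) = w j)).card : ℝ) / (N : ℝ)))
      atTop (𝓝 (1 / (b : ℝ) ^ k)) := by
  set w' : ℕ → ℤ := fun j => if h : j < k then w ⟨j, h⟩ else 0 with hw'
  have hb0 : (0 : ℤ) < b := by omega
  have hw1 : ∀ j, 0 ≤ w' j ∧ w' j < b := by
    intro j
    simp only [hw']
    split_ifs with h
    · exact hw _
    · exact ⟨le_refl _, hb0⟩
  have hbr : (0 : ℝ) < (b : ℝ) ^ k := by positivity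
  have hV0 : (0 : ℝ) ≤ V b w' k := by exact_mod_cast V_nonneg hw1 k
  have hV1 : (V b w' k : ℝ) + 1 ≤ (b : ℝ) ^ k := by exact_mod_cast V_lt hw1 k
  have h1 := hx (V b w' k / (b : ℝ) ^ k) ((V b w' k + 1) / (b : ℝ) ^ k) (by positivity)
    (by gcongr; linarith) (by rw [div_le_one hbr]; exact hV1)
  have h2 : ((V b w' k : ℝ) + 1) / (b : ℝ) ^ k - V b w' k / (b : ℝ) ^ k = 1 / (b : ℝ) ^ k := by
    rw [← sub_div]
    congr 1
    ring
  rw [h2] at h1
  refine h1.congr fun N => ?_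
  congr 3
  apply Finset.filter_congr
  intro i _
  have hy0 := Int.fract_nonneg (x * (b : ℝ) ^ i)
  have hy1 := Int.fract_lt_one (x * (b : ℝ) ^ i)
  have h3 : (∀ j : Fin k, ⌊x * (b : ℝ) ^ (i + j.val + 1)⌋ % (b : ℤ) = w j) ↔
      ∀ j < k, ⌊Int.fract (x * (b : ℝ) ^ i) * (b : ℝ) ^ (j + 1)⌋ % (b : ℤ) = w' j := by
    constructor
    · intro h j hj
      have h4 := h ⟨j, hj⟩
      rw [floor_shift] at h4
      rw [h4]
      simp only [hw']
      rw [dif_pos hj]
    · intro h j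
      rw [floor_shift, h j.val j.isLt]
      simp only [hw']
      rw [dif_pos j.isLt]
  rw [h3, digit_iff hb hy0 hy1 hw1, Int.floor_eq_iff, div_le_iff₀ hbr, lt_div_iff₀ hbr]

/-! ### The gauge -/

section

variable {s : ℕ → ℕ} (hs : StrictMono s) (hs0 : s 0 = 0) (hs4 : ∀ k, k ^ 4 ≤ s k)

include hs in
theorem free_card {k m : ℕ} (hm : m ≤ s (k + 1)) : m ≤ (free (Set.range s) m).card + (k + 1) := by
  classical
  have h1 : (Finset.range m) ⊆ free (Set.range s) m ∪ (Finset.range (k + 1)).image s := by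
    intro j hj
    rw [Finset.mem_range] at hj
    rw [Finset.mem_union]
    by_cases h : j ∈ Set.range s
    · right
      obtain ⟨i, rfl⟩ := h
      rw [Finset.mem_image]
      refine ⟨i, ?_, rfl⟩
      rw [Finset.mem_range]
      exact hs.lt_iff_lt.mp (lt_of_lt_of_le hj hm)
    · left
      unfold free
      simp only [Finset.mem_filter, Finset.mem_range]
      exact ⟨hj, h⟩
  have h2 := (Finset.card_le_card h1).trans (Finset.card_union_le _ _)
  have h3 := Finset.card_image_le (s := Finset.range (k + 1)) (f := s)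
  rw [Finset.card_range] at h2 h3
  omega

include hs hs4 in
theorem free_tendsto : Tendsto (fun m => (free (Set.range s) m).card) atTop atTop := by
  apply tendsto_atTop_atTop_of_monotone
  · intro m m' hmm
    apply Finset.card_le_card
    intro j hj
    unfold free at hj ⊢
    simp only [Finset.mem_filter, Finset.mem_range] at hj ⊢
    exact ⟨lt_of_lt_of_le hj.1 hmm, hj.2⟩
  · intro C
    refine ⟨(C + 2) ^ 4, ?_⟩
    have h1 := free_card hs (k := C + 1) (m := (C + 2) ^ 4) (hs4 (C + 2))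
    have h2 : 2 * C + 2 ≤ (C + 2) ^ 4 := by
      have h3 : (C + 2) ^ 2 ≤ (C + 2) ^ 4 := Nat.pow_le_pow_right (by omega) (by norm_num)
      have h4 : 2 * C + 2 ≤ (C + 2) ^ 2 := by nlinarith
      exact h4.trans h3
    omega

include hs hs0 in
theorem exists_index {m : ℕ} (hm : 1 ≤ m) : ∃ k, s k < m ∧ m ≤ s (k + 1) := by
  by_contra hcon
  push Not at hcon
  have hall : ∀ k, s k < m := by
    intro k
    induction k with
    | zero => omega
    | succ k ih => exact hcon k ih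
  have h1 := hall m
  have h2 := hs.id_le m
  simp only [id] at h2
  omega

end

theorem exists_seq {φ : ℝ → ℝ} (hpos : ∀ r : ℝ, 0 < r → 0 < φ r)
    (hlim : Tendsto (fun r : ℝ => r / φ r) (𝓝[>] (0 : ℝ)) (𝓝 0)) :
    ∃ (s t : ℕ → ℕ), StrictMono s ∧ s 0 = 0 ∧ (∀ k, k ^ 4 ≤ s k) ∧ (∀ k, 1 ≤ k → t k ≤ s k) ∧
      ∀ k r, 0 < r → r ≤ (1 / 2 : ℝ) ^ t k → 10 * 2 ^ (k + 1) * r ≤ φ r := by
  have h1 : ∀ k : ℕ, ∃ t : ℕ, ∀ r : ℝ, 0 < r → r ≤ (1 / 2 : ℝ) ^ t → 10 * 2 ^ (k + 1) * r ≤ φ r := by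
    intro k
    have hc : (0 : ℝ) < 1 / (10 * 2 ^ (k + 1)) := by positivity
    have h2 := hlim.eventually_lt_const hc
    rw [eventually_nhdsWithin_iff, Metric.eventually_nhds_iff] at h2
    obtain ⟨δ, hδ, h3⟩ := h2
    obtain ⟨t, ht⟩ := exists_pow_lt_of_lt_one hδ (by norm_num : (1 / 2 : ℝ) < 1)
    refine ⟨t, fun r hr hrt => ?_⟩
    have h4 := h3 (y := r) (by
      rw [Real.dist_eq, sub_zero, abs_of_pos hr]
      linarith) hr
    rw [div_lt_div_iff₀ (hpos r hr) (by positivity)] at h4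
    linarith
  choose t ht using h1
  refine ⟨fun k => Nat.rec 0 (fun k sk => sk + 1 + t (k + 1) + (k + 1) ^ 4) k, t, ?_, rfl, ?_, ?_, ht⟩
  · apply strictMono_nat_of_lt_succ
    intro k
    simp only []
    omega
  · intro k
    cases k with
    | zero => simp
    | succ k =>
      simp only []
      omega
  · intro k hk
    cases k with
    | zero => omega
    | succ k =>
      simp only []
      omega

/-- The mass distribution principle. -/
theorem mass_gauge {φ : ℝ → ℝ} {s t : ℕ → ℕ} (hs : StrictMono s) (hs0 : s 0 = 0)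
    (hs4 : ∀ k, k ^ 4 ≤ s k) (hst : ∀ k, 1 ≤ k → t k ≤ s k)
    (hφ : ∀ k r, 0 < r → r ≤ (1 / 2 : ℝ) ^ t k → 10 * 2 ^ (k + 1) * r ≤ φ r) (A : Set ℝ) :
    mu (X (Set.range s) ⁻¹' A) ≤
      (Measure.mkMetric (fun r : ℝ≥0∞ => ENNReal.ofReal (φ r.toReal)) : Measure ℝ) A := by
  have hle : OuterMeasure.map (X (Set.range s)) mu.toOuterMeasure ≤
      (OuterMeasure.mkMetric (fun r : ℝ≥0∞ => ENNReal.ofReal (φ r.toReal)) : OuterMeasure ℝ) := by
    apply OuterMeasure.le_mkMetric _ _ (ENNReal.ofReal ((1 / 2) ^ (t 0 + 1)))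
    · rw [ENNReal.ofReal_pos]
      positivity
    intro U hU
    rw [OuterMeasure.map_apply, Measure.toOuterMeasure_apply]
    have hfin : Metric.ediam U ≠ ∞ := ne_top_of_le_ne_top ENNReal.ofReal_ne_top hU
    set r := (Metric.ediam U).toReal with hr
    have hr0 : 0 ≤ r := ENNReal.toReal_nonneg
    have hr1 : r ≤ (1 / 2) ^ (t 0 + 1) := ENNReal.toReal_le_of_le_ofReal (by positivity) hU
    have hdist : ∀ x ∈ U, ∀ y ∈ U, |x - y| ≤ r := by
      intro x hx y hy
      have h1 : edist x y ≤ Metric.ediam U := Metric.edist_le_ediam_of_mem hx hy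
      rw [← Real.dist_eq, dist_edist]
      exact (ENNReal.toReal_le_toReal (edist_ne_top _ _) hfin).mpr h1
    rcases hr0.eq_or_lt with h0 | h0
    · have hsub : U.Subsingleton := by
        intro x hx y hy
        have := hdist x hx y hy
        rw [← h0] at this
        have h2 := abs_nonpos_iff.mp this
        linarith
      rw [mu_point _ (free_tendsto hs hs4) U hsub]
      exact bot_le
    · obtain ⟨m, hm1, hm2⟩ := exists_nat_pow_near_of_lt_one h0
        (hr1.trans (pow_le_one₀ (by norm_num) (by norm_num))) (by norm_num : (0 : ℝ) < 1 / 2)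
        (by norm_num)
      have hmt : t 0 < m := by
        have h1 : (1 / 2 : ℝ) ^ (m + 1) < (1 / 2) ^ (t 0 + 1) := lt_of_lt_of_le hm1 hr1
        have h2 := (pow_lt_pow_iff_right_of_lt_one₀ (by norm_num : (0 : ℝ) < 1 / 2)
          (by norm_num)).mp h1
        omega
      obtain ⟨k, hk1, hk2⟩ := exists_index hs hs0 (by omega : 1 ≤ m)
      have hU2 : ∀ x ∈ U, ∀ y ∈ U, 2 ^ m * |x - y| ≤ 1 := by
        intro x hx y hy
        have h1 := (hdist x hx y hy).trans hm2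
        calc (2 : ℝ) ^ m * |x - y| ≤ 2 ^ m * (1 / 2) ^ m := by gcongr
          _ = 1 := by
            rw [← mul_pow]
            norm_num
      refine (mu_small (Set.range s) U m hU2).trans ?_
      have hfc := free_card hs hk2
      have hrt : r ≤ (1 / 2) ^ t k := by
        refine hm2.trans (pow_le_pow_of_le_one (by norm_num) (by norm_num) ?_)
        rcases Nat.eq_zero_or_pos k with h | h
        · rw [h]
          exact hmt.le
        · exact (hst k h).trans hk1.le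
      have hφr := hφ k r h0 hrt
      have h5 : (5 : ℝ) * (1 / 2) ^ (free (Set.range s) m).card ≤ φ r := by
        refine le_trans ?_ hφr
        have h6 : (1 / 2 : ℝ) ^ (free (Set.range s) m).card ≤ (1 / 2) ^ m * 2 ^ (k + 1) := by
          have h7 : (1 / 2 : ℝ) ^ m * 2 ^ (k + 1) = (1 / 2) ^ m / (1 / 2) ^ (k + 1) := by
            rw [one_div_pow (2 : ℝ) (k + 1)]
            field_simp
          rw [h7, le_div_iff₀ (by positivity), ← pow_add]
          exact pow_le_pow_of_le_one (by norm_num) (by norm_num) hfc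
        have h8 : (1 / 2 : ℝ) ^ m ≤ 2 * r := by
          have : (1 / 2 : ℝ) ^ m = 2 * (1 / 2) ^ (m + 1) := by
            rw [pow_succ]
            ring
          linarith
        calc (5 : ℝ) * (1 / 2) ^ (free (Set.range s) m).card ≤ 5 * ((1 / 2) ^ m * 2 ^ (k + 1)) := by
              gcongr
          _ ≤ 5 * ((2 * r) * 2 ^ (k + 1)) := by gcongr
          _ = 10 * 2 ^ (k + 1) * r := by ring
      have h9 : (5 : ℝ≥0∞) * 2⁻¹ ^ (free (Set.range s) m).card =
          ENNReal.ofReal (5 * (1 / 2) ^ (free (Set.range s) m).card) := by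
        rw [ENNReal.ofReal_mul (by norm_num), ENNReal.ofReal_pow (by norm_num), one_div,
          ENNReal.ofReal_inv_of_pos (by norm_num)]
        simp
      rw [h9]
      exact ENNReal.ofReal_le_ofReal h5
  have h1 := hle A
  rw [OuterMeasure.map_apply, Measure.toOuterMeasure_apply, ← Measure.mkMetric_toOuterMeasure,
    Measure.toOuterMeasure_apply] at h1
  exact h1

theorem lam_int (γ : ℤ → ℂ) (x : ℝ) (m : ℤ) : lam γ (m + x) = lam γ x := by
  unfold lam
  congr 1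
  ext j
  have : E j (m : ℝ) = 1 := by
    rw [E]
    have : (2 * (Real.pi : ℂ) * Complex.I * (j : ℂ) * ((m : ℝ) : ℂ)) =
        ((j * m : ℤ) : ℂ) * (2 * Real.pi * Complex.I) := by
      push_cast
      ring
    rw [this, Complex.exp_int_mul_two_pi_mul_I]
  rw [E_add, this, one_mul]

theorem X_half {s : ℕ → ℕ} (hs0 : s 0 = 0) (ω : ℕ → Bool) : X (Set.range s) ω ≤ 1 / 2 := by
  obtain ⟨y, hy0, hy1, hy2, hy⟩ := X_split (Set.range s) ω 0
  have h1 := hy2 ⟨0, hs0⟩
  simp only [pre, pow_zero, one_mul, Nat.cast_zero, zero_add] at hy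
  rw [hy]
  exact h1

theorem main : ∀ φ : ℝ → ℝ, MonotoneOn φ (Set.Ici 0) → φ 0 = 0 → (∀ r : ℝ, 0 < r → 0 < φ r) →
      Tendsto φ (𝓝[>] (0:ℝ)) (𝓝 0) →
      Tendsto (fun r : ℝ => r / φ r) (𝓝[>] (0:ℝ)) (𝓝 0) →
      ∃ K : Set ℝ, IsClosed K ∧ K ⊆ Set.Icc (0:ℝ) 1 ∧
        (∀ c : ℤ → ℂ,
          (∀ x : ℝ, (∀ m : ℤ, x + (m:ℝ) ∉ K) →
            Tendsto (fun N : ℕ => ∑ n ∈ Finset.Icc (-(N:ℤ)) (N:ℤ),
              c n * Complex.exp (2 * (Real.pi:ℂ) * Complex.I * (n:ℂ) * (x:ℂ))) atTop (𝓝 0)) →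
          ∀ n : ℤ, c n = 0) ∧
        0 < MeasureTheory.Measure.mkMetric (fun r : ℝ≥0∞ => ENNReal.ofReal (φ r.toReal))
          (K ∩ {x : ℝ | ∀ b : ℕ, 2 ≤ b → ∀ k : ℕ, ∀ w : Fin k → ℤ,
            (∀ j : Fin k, 0 ≤ w j ∧ w j < (b:ℤ)) →
            Tendsto (fun N : ℕ =>
              ((((Finset.range N).filter (fun i : ℕ =>
                ∀ j : Fin k, ⌊x * (b:ℝ) ^ (i + j.val + 1)⌋ % (b:ℤ) = w j)).card : ℝ) / (N:ℝ)))
              atTop (𝓝 (1 / (b:ℝ) ^ k))}) := by
  intro φ _ _ hpos _ hlim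
  obtain ⟨s, t, hs, hs0, hs4, hst, hφ⟩ := exists_seq hpos hlim
  refine ⟨Set.range (X (Set.range s)), (isCompact_range (continuous_X _)).isClosed, ?_, ?_, ?_⟩
  · rintro _ ⟨ω, rfl⟩
    exact ⟨X_nonneg _ _, X_le _ _⟩
  · intro c hc n
    obtain ⟨γ, hγ, hγ0, hγz⟩ := exists_gamma
    refine uniqueness (K := Set.range (X (Set.range s))) (M := fun k => (2 : ℤ) ^ s k) ?_ hγ hγ0 ?_
      (a := 1 / 2) (b := 1) (by norm_num) ?_ (c := c) (fun x hx => hc x hx) n
    · rw [tendsto_atTop]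
      intro C
      filter_upwards [eventually_ge_atTop C.toNat] with k hk
      have h1 : k < 2 ^ k := Nat.lt_two_pow_self
      have h2 : 2 ^ k ≤ 2 ^ s k := Nat.pow_le_pow_right (by norm_num) (hs.id_le k)
      have h3 : ((k : ℕ) : ℤ) ≤ (2 : ℤ) ^ s k := by
        have : k ≤ 2 ^ s k := h1.le.trans h2
        exact_mod_cast this
      omega
    · rintro _ ⟨ω, rfl⟩ k
      obtain ⟨y, hy0, hy1, hy2, hy⟩ := X_split (Set.range s) ω (s k)
      have h1 : (((2 : ℤ) ^ s k : ℤ) : ℝ) * X (Set.range s) ω =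
          ((pre (Set.range s) ω (s k) : ℤ) : ℝ) + y := by
        push_cast
        exact hy
      rw [h1, lam_int]
      exact hγz y ⟨hy0, hy2 ⟨k, rfl⟩⟩
    · rintro x hx m ⟨ω, hω⟩
      have h1 := X_nonneg (Set.range s) ω
      have h2 := X_half hs0 ω
      rw [hω] at h1 h2
      have h3 : (m : ℝ) ≤ -1 ∨ 0 ≤ (m : ℝ) := by
        rcases le_or_gt 0 m with h | h
        · right
          exact_mod_cast h
        · left
          have : m ≤ -1 := by omega
          exact_mod_cast this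
      rcases h3 with h | h
      · linarith [hx.2]
      · linarith [hx.1]
  · have hae : ∀ᵐ ω ∂mu, ∀ b h : ℕ, 2 ≤ b → 1 ≤ h → Tendsto (fun N : ℕ =>
        ‖∑ i ∈ Finset.range N, ex (h * (b : ℝ) ^ i * X (Set.range s) ω)‖ / (N : ℝ)) atTop (𝓝 0) := by
      rw [ae_all_iff]
      intro b
      rw [ae_all_iff]
      intro h
      by_cases hb : 2 ≤ b
      · by_cases hh : 1 ≤ h
        · filter_upwards [weyl_ae hs hs0 hs4 hb hh] with ω hω _ _
          exact hω
        · exact Eventually.of_forall fun ω _ h' => absurd h' hh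
      · exact Eventually.of_forall fun ω h' => absurd h' hb
    refine lt_of_lt_of_le ?_ (mass_gauge hs hs0 hs4 hst hφ _)
    have hone : mu (X (Set.range s) ⁻¹' (Set.range (X (Set.range s)) ∩
        {x : ℝ | ∀ b : ℕ, 2 ≤ b → ∀ k : ℕ, ∀ w : Fin k → ℤ,
            (∀ j : Fin k, 0 ≤ w j ∧ w j < (b:ℤ)) →
            Tendsto (fun N : ℕ =>
              ((((Finset.range N).filter (fun i : ℕ =>
                ∀ j : Fin k, ⌊x * (b:ℝ) ^ (i + j.val + 1)⌋ % (b:ℤ) = w j)).card : ℝ) / (N:ℝ)))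
              atTop (𝓝 (1 / (b:ℝ) ^ k))})) = 1 := by
      rw [← measure_univ (μ := mu)]
      apply measure_congr
      filter_upwards [hae] with ω hω
      apply eq_true
      change ω ∈ X (Set.range s) ⁻¹' _
      refine ⟨⟨ω, rfl⟩, ?_⟩
      intro b hb k w hw
      apply block_tendsto hb _ k w hw
      apply H534R3.UDist.ud_of_weyl
      intro h hh
      refine (hω b h hb hh).congr fun N => ?_
      congr 2
      apply Finset.sum_congr rfl
      intro i _
      rw [ex, H534R3.UDist.ee]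
      congr 1
      push_cast
      ring
    rw [hone]
    exact one_pos

end Pool.Agent.Y249.SU
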