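import Pool.Agent.Y249.SU.Cantor

/-!
# The Cantor-Lebesgue theorem on an interval
-/

set_option autoImplicit false

open MeasureTheory Filter Topology

namespace Pool.Agent.Y249.SU

theorem tendsto_A {c : ℤ → ℂ} {x : ℝ} (h : Tendsto (fun N : ℕ => S c N x) atTop (𝓝 0)) :
    Tendsto (fun n : ℕ => A c n x) atTop (𝓝 0) := by
  rw [← tendsto_add_atTop_iff_nat 1]
  have h1 := ((tendsto_add_atTop_iff_nat 1).mpr h).sub h
  rw [sub_zero] at h1
  refine h1.congr fun n => ?_
  rw [S_succ]
  ring

/-- The size of the coefficients of index `± n`. -/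
noncomputable def D (c : ℤ → ℂ) (n : ℕ) : ℝ := Real.sqrt (‖c n‖ ^ 2 + ‖c (-n)‖ ^ 2)

theorem D_sq (c : ℤ → ℂ) (n : ℕ) : D c n ^ 2 = ‖c n‖ ^ 2 + ‖c (-n)‖ ^ 2 :=
  Real.sq_sqrt (by positivity)

theorem D_nonneg (c : ℤ → ℂ) (n : ℕ) : 0 ≤ D c n := Real.sqrt_nonneg _

theorem le_D (c : ℤ → ℂ) (n : ℕ) : ‖c n‖ ≤ D c n := by
  apply Real.le_sqrt_of_sq_le
  nlinarith [sq_nonneg ‖c (-n)‖]

theorem le_D' (c : ℤ → ℂ) (n : ℕ) : ‖c (-n)‖ ≤ D c n := by
  apply Real.le_sqrt_of_sq_le
  nlinarith [sq_nonneg ‖c n‖]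

theorem norm_A_le_D (c : ℤ → ℂ) (n : ℕ) (x : ℝ) : ‖A c n x‖ ≤ 2 * D c n := by
  have h1 := le_D c n
  have h2 := le_D' c n
  unfold A
  split_ifs with h
  · subst h
    have := D_nonneg c 0
    simp only [Nat.cast_zero] at h1
    linarith
  · refine (norm_add_le _ _).trans ?_
    rw [norm_mul, norm_mul, norm_E, norm_E, mul_one, mul_one]
    linarith

theorem conj_E (n : ℤ) (x : ℝ) : (starRingEnd ℂ) (E (-n) x) = E n x := by
  rw [E, E, ← Complex.exp_conj]
  congr 1
  simp only [map_mul, Complex.conj_ofReal, Complex.conj_I, map_ofNat, map_intCast]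
  push_cast
  ring

theorem norm_A_sq (c : ℤ → ℂ) {n : ℕ} (hn : n ≠ 0) (x : ℝ) :
    ‖A c n x‖ ^ 2 = D c n ^ 2 + 2 * ((c n * (starRingEnd ℂ) (c (-n))) * E (2 * n) x).re := by
  rw [D_sq, Complex.sq_norm, A, if_neg hn, Complex.normSq_add, Complex.normSq_mul, Complex.normSq_mul]
  rw [← Complex.sq_norm, ← Complex.sq_norm, ← Complex.sq_norm, ← Complex.sq_norm, norm_E, norm_E]
  rw [map_mul, conj_E]
  have : E (2 * n) x = E n x * E n x := by rw [two_mul, E_add_left]
  rw [this]
  have h2 : c n * E n x * ((starRingEnd ℂ) (c (-n)) * E n x) =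
      c n * (starRingEnd ℂ) (c (-n)) * (E n x * E n x) := by ring
  rw [h2]
  ring

theorem norm_integral_E_le (n : ℤ) (hn : n ≠ 0) (a b : ℝ) :
    ‖∫ y in a..b, E n y‖ ≤ 1 / (Real.pi * |(n : ℝ)|) := by
  have h := integral_E n hn ((a + b) / 2) ((b - a) / 2)
  rw [show (a + b) / 2 - (b - a) / 2 = a by ring, show (a + b) / 2 + (b - a) / 2 = b by ring] at h
  rw [h, norm_mul, norm_E, one_mul, Complex.norm_real, Real.norm_eq_abs, abs_div, abs_mul,
    abs_of_pos Real.pi_pos]
  have hn' : 0 < |(n : ℝ)| := abs_pos.mpr (Int.cast_ne_zero.mpr hn)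
  have := Real.pi_pos
  gcongr
  exact Real.abs_sin_le_one _

theorem integral_norm_A_sq (c : ℤ → ℂ) {n : ℕ} (hn : n ≠ 0) {a b : ℝ} (hab : a ≤ b) :
    D c n ^ 2 * ((b - a) - 1 / n) ≤ ∫ y in a..b, ‖A c n y‖ ^ 2 := by
  have hint : ∫ y in a..b, ‖A c n y‖ ^ 2 = D c n ^ 2 * (b - a) +
      2 * ((c n * (starRingEnd ℂ) (c (-n))) * ∫ y in a..b, E (2 * n) y).re := by
    simp only [norm_A_sq c hn]
    rw [intervalIntegral.integral_add, intervalIntegral.integral_const,
      intervalIntegral.integral_const_mul]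
    · have h1 : ∫ y in a..b, ((c n * (starRingEnd ℂ) (c (-n))) * E (2 * n) y).re =
          (∫ y in a..b, (c n * (starRingEnd ℂ) (c (-n))) * E (2 * n) y).re :=
        Complex.reCLM.intervalIntegral_comp_comm
          (((continuous_E _).const_mul _).intervalIntegrable _ _)
      rw [h1, intervalIntegral.integral_const_mul, smul_eq_mul]
      ring
    · exact continuous_const.intervalIntegrable _ _
    · apply Continuous.intervalIntegrable
      have := continuous_E (2 * n)
      fun_prop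
  rw [hint]
  have h2n : (2 * (n : ℤ)) ≠ 0 := by omega
  have hb1 := norm_integral_E_le (2 * n) h2n a b
  have hnpos : (0 : ℝ) < n := by exact_mod_cast Nat.pos_of_ne_zero hn
  have hb2 : ‖∫ y in a..b, E (2 * n) y‖ ≤ 1 / (2 * n) := by
    refine hb1.trans ?_
    have h3 : |((2 * (n : ℤ) : ℤ) : ℝ)| = 2 * n := by
      push_cast
      rw [abs_of_pos (by positivity)]
    rw [h3]
    apply one_div_le_one_div_of_le (by positivity)
    have := Real.pi_gt_three
    nlinarith
  have hb3 : ‖(c n * (starRingEnd ℂ) (c (-n))) * ∫ y in a..b, E (2 * n) y‖ ≤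
      D c n ^ 2 * (1 / (2 * n)) := by
    rw [norm_mul, norm_mul, RCLike.norm_conj]
    have h4 : ‖c n‖ * ‖c (-n)‖ ≤ D c n ^ 2 := by
      have := le_D c n
      have := le_D' c n
      nlinarith [norm_nonneg (c n), norm_nonneg (c (-n)), D_nonneg c n]
    exact mul_le_mul h4 hb2 (norm_nonneg _) (by positivity)
  have hb4 := (abs_le.mp ((Complex.abs_re_le_norm _).trans hb3)).1
  have h5 : D c n ^ 2 * (1 / (2 * n)) * 2 = D c n ^ 2 * (1 / n) := by
    field_simp
  nlinarith

/-- The Cantor-Lebesgue theorem. -/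
theorem cantor_lebesgue {c : ℤ → ℂ} {a b : ℝ} (hab : a < b)
    (h : ∀ x ∈ Set.Ioo a b, Tendsto (fun N : ℕ => S c N x) atTop (𝓝 0)) :
    Tendsto (D c) atTop (𝓝 0) := by
  rw [Metric.tendsto_atTop']
  intro ε hε
  have hba : 0 < b - a := by linarith
  -- the normalised terms
  set G : ℕ → ℝ → ℝ := fun n x => if ε ≤ D c n then ‖A c n x‖ ^ 2 / D c n ^ 2 else 0 with hG
  have hlim : Tendsto (fun n => ∫ x in a..b, G n x) atTop (𝓝 (∫ x in a..b, (0 : ℝ))) := by
    apply intervalIntegral.tendsto_integral_filter_of_dominated_convergence (fun _ => 4)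
    · refine Eventually.of_forall fun n => ?_
      simp only [hG]
      split_ifs
      · have := continuous_A c n
        apply Continuous.aestronglyMeasurable
        fun_prop
      · exact aestronglyMeasurable_const
    · refine Eventually.of_forall fun n => Eventually.of_forall fun x _ => ?_
      simp only [hG]
      split_ifs with h1
      · have hD : 0 < D c n := lt_of_lt_of_le hε h1
        rw [Real.norm_of_nonneg (by positivity), div_le_iff₀ (by positivity)]
        have := norm_A_le_D c n x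
        nlinarith [norm_nonneg (A c n x)]
      · simp
    · exact _root_.intervalIntegrable_const
    · have hne : ∀ᵐ x ∂(volume : Measure ℝ), x ≠ b := by
        simp [ae_iff, measure_singleton]
      filter_upwards [hne] with x hxb hx
      rw [Set.uIoc_of_le hab.le] at hx
      have hA := tendsto_A (h x ⟨hx.1, lt_of_le_of_ne hx.2 hxb⟩)
      have hA2 : Tendsto (fun n => ‖A c n x‖ ^ 2 / ε ^ 2) atTop (𝓝 0) := by
        have := (hA.norm.pow 2).div_const (ε ^ 2)
        simpa using this
      apply squeeze_zero (fun n => ?_) (fun n => ?_) hA2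
      · simp only [hG]
        split_ifs
        · positivity
        · exact le_refl _
      · simp only [hG]
        split_ifs with h1
        · apply div_le_div_of_nonneg_left (by positivity) (by positivity)
          gcongr
        · positivity
  rw [intervalIntegral.integral_zero] at hlim
  have hev1 : ∀ᶠ n in atTop, ∫ x in a..b, G n x < (b - a) / 2 :=
    hlim.eventually_lt_const (by positivity)
  have hev2 : ∀ᶠ n : ℕ in atTop, 1 / (n : ℝ) < (b - a) / 2 :=
    (tendsto_one_div_atTop_nhds_zero_nat).eventually_lt_const (by positivity)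
  obtain ⟨N, hN⟩ := eventually_atTop.mp ((hev1.and hev2).and (eventually_ne_atTop 0))
  refine ⟨N, fun n hn => ?_⟩
  obtain ⟨⟨h1, h2⟩, h3⟩ := hN n hn.le
  rw [dist_zero_right, Real.norm_of_nonneg (D_nonneg c n)]
  by_contra hcon
  push Not at hcon
  have hD : 0 < D c n := lt_of_lt_of_le hε hcon
  have h4 : ∫ x in a..b, G n x = (∫ x in a..b, ‖A c n x‖ ^ 2) / D c n ^ 2 := by
    rw [← intervalIntegral.integral_div]
    apply intervalIntegral.integral_congr
    intro x _
    simp only [hG]
    rw [if_pos hcon]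
  have h5 := integral_norm_A_sq c h3 hab.le
  rw [h4, div_lt_iff₀ (by positivity)] at h1
  have h6 : 0 < D c n ^ 2 := by positivity
  nlinarith

end Pool.Agent.Y249.SU
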