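import Mathlib

/-!
# The weight `6 (t - sin t) / t ^ 3` and summation by parts
-/

set_option autoImplicit false

open MeasureTheory Filter Topology

namespace Pool.Agent.Y249.SU

/-- The weight. -/
noncomputable def v (t : ℝ) : ℝ := if t = 0 then 1 else 6 * (t - Real.sin t) / t ^ 3

theorem v_zero : v 0 = 1 := by simp [v]

theorem v_pos_eq {t : ℝ} (ht : t ≠ 0) : v t = 6 * (t - Real.sin t) / t ^ 3 := by simp [v, ht]

theorem mono_of_deriv {f f' : ℝ → ℝ} {b : ℝ} (hb : 0 ≤ b) (hd : ∀ s, HasDerivAt f (f' s) s)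
    (hf : ∀ s, 0 ≤ s → s ≤ b → 0 ≤ f' s) (h0 : f 0 = 0) : ∀ s, 0 ≤ s → s ≤ b → 0 ≤ f s := by
  have hmono : MonotoneOn f (Set.Icc 0 b) := by
    apply monotoneOn_of_deriv_nonneg (convex_Icc _ _)
    · intro s _
      exact (hd s).continuousAt.continuousWithinAt
    · intro s _
      exact (hd s).differentiableAt.differentiableWithinAt
    · intro s hs
      rw [interior_Icc] at hs
      rw [(hd s).deriv]
      exact hf s hs.1.le hs.2.le
  intro s h1 h2
  have := hmono (Set.left_mem_Icc.mpr hb) ⟨h1, h2⟩ h1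
  rwa [h0] at this

/-- The Cusa inequality. -/
theorem cusa {t : ℝ} (ht : 0 ≤ t) : 0 ≤ t * (2 + Real.cos t) - 3 * Real.sin t := by
  rcases le_or_gt t Real.pi with h | h
  · -- monotone on [0, π]
    have h2 : ∀ s, 0 ≤ s → s ≤ Real.pi → 0 ≤ Real.sin s - s * Real.cos s := by
      apply mono_of_deriv (f' := fun s => s * Real.sin s) Real.pi_pos.le
      · intro s
        exact ((Real.hasDerivAt_sin s).sub ((hasDerivAt_id s).mul (Real.hasDerivAt_cos s))).congr_deriv
          (by simp only [id]; ring)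
      · intro s h0 h1
        exact mul_nonneg h0 (Real.sin_nonneg_of_nonneg_of_le_pi h0 h1)
      · simp
    have h1 : ∀ s, 0 ≤ s → s ≤ Real.pi → 0 ≤ 2 - 2 * Real.cos s - s * Real.sin s := by
      apply mono_of_deriv (f' := fun s => Real.sin s - s * Real.cos s) Real.pi_pos.le
      · intro s
        exact (((hasDerivAt_const s (2:ℝ)).sub ((Real.hasDerivAt_cos s).const_mul 2)).sub
              ((hasDerivAt_id s).mul (Real.hasDerivAt_sin s))).congr_deriv (by simp only [id]; ring)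
      · exact h2
      · simp
    exact mono_of_deriv (f := fun s => s * (2 + Real.cos s) - 3 * Real.sin s)
      (f' := fun s => 2 - 2 * Real.cos s - s * Real.sin s) Real.pi_pos.le
      (fun s => (((hasDerivAt_id s).mul ((hasDerivAt_const s (2:ℝ)).add (Real.hasDerivAt_cos s))).sub
            ((Real.hasDerivAt_sin s).const_mul 3)).congr_deriv (by
              simp only [id, Pi.add_apply]; ring)) h1 (by simp)
      t ht h
  · have h1 := Real.pi_gt_three
    have h2 := Real.neg_one_le_cos t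
    have h3 := Real.sin_le_one t
    nlinarith

theorem v_anti_pos : AntitoneOn v (Set.Ioi 0) := by
  have h1 : AntitoneOn (fun t : ℝ => 6 * (t - Real.sin t) / t ^ 3) (Set.Ioi 0) := by
    have hd : ∀ t : ℝ, 0 < t → HasDerivAt (fun t : ℝ => 6 * (t - Real.sin t) / t ^ 3)
        ((6 * (1 - Real.cos t) * t ^ 3 - 6 * (t - Real.sin t) * (3 * t ^ 2)) / (t ^ 3) ^ 2) t := by
      intro t ht
      have e3 : HasDerivAt (fun y : ℝ => y ^ 3) (3 * t ^ 2) t := by
        simpa using hasDerivAt_pow 3 t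
      exact ((((hasDerivAt_id t).sub (Real.hasDerivAt_sin t)).const_mul 6).div e3
        (by positivity))
    apply antitoneOn_of_deriv_nonpos (convex_Ioi _)
    · intro t ht
      exact (hd t ht).continuousAt.continuousWithinAt
    · intro t ht
      rw [interior_Ioi] at ht
      exact (hd t ht).differentiableAt.differentiableWithinAt
    · intro t ht
      rw [interior_Ioi] at ht
      have ht : 0 < t := ht
      rw [(hd t ht).deriv]
      apply div_nonpos_of_nonpos_of_nonneg _ (by positivity)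
      have h1 := cusa ht.le
      have h2 : 6 * (1 - Real.cos t) * t ^ 3 - 6 * (t - Real.sin t) * (3 * t ^ 2) =
        - (6 * t ^ 2 * (t * (2 + Real.cos t) - 3 * Real.sin t)) := by ring
      rw [h2]
      have : 0 ≤ 6 * t ^ 2 * (t * (2 + Real.cos t) - 3 * Real.sin t) := by positivity
      linarith
  intro s hs t ht hst
  rw [v_pos_eq (ne_of_gt hs), v_pos_eq (ne_of_gt ht)]
  exact h1 hs ht hst

theorem v_near {t : ℝ} (h0 : 0 < t) (h1 : t ≤ 1) : |v t - 1| ≤ t := by
  have h2 := Real.sin_bound (x := t) (by rw [abs_of_pos h0]; exact h1)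
  rw [v_pos_eq h0.ne']
  have h3 : 6 * (t - Real.sin t) / t ^ 3 - 1 = - (6 * (Real.sin t - (t - t ^ 3 / 6)) / t ^ 3) := by
    field_simp
    ring
  rw [h3, abs_neg, abs_div, abs_mul, abs_of_pos (by positivity : (0:ℝ) < t ^ 3),
    abs_of_pos (by norm_num : (0:ℝ) < 6), div_le_iff₀ (by positivity)]
  rw [abs_of_pos h0] at h2
  have h4 : t * t ^ 3 = t ^ 4 := by ring
  rw [h4]
  have h5 : t ^ 5 ≤ t ^ 4 := pow_le_pow_of_le_one h0.le h1 (by norm_num)
  have h6 : (0:ℝ) < t ^ 4 := by positivity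
  linarith

theorem v_tendsto : Tendsto v (𝓝[>] 0) (𝓝 1) := by
  rw [Metric.tendsto_nhdsWithin_nhds]
  intro ε hε
  refine ⟨min ε 1, by positivity, fun t ht hd => ?_⟩
  have ht : 0 < t := ht
  rw [Real.dist_eq, sub_zero, abs_of_pos ht, lt_min_iff] at hd
  rw [Real.dist_eq]
  exact lt_of_le_of_lt (v_near ht hd.2.le) hd.1

theorem v_nonneg {t : ℝ} (ht : 0 ≤ t) : 0 ≤ v t := by
  rcases ht.eq_or_lt with h | h
  · rw [← h, v_zero]; exact zero_le_one
  · rw [v_pos_eq h.ne']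
    have := Real.sin_le h.le
    apply div_nonneg _ (by positivity)
    linarith

theorem v_le_one {t : ℝ} (ht : 0 ≤ t) : v t ≤ 1 := by
  rcases ht.eq_or_lt with h | h
  · rw [← h, v_zero]
  · apply ge_of_tendsto v_tendsto
    filter_upwards [Ioo_mem_nhdsGT h] with s hs
    exact v_anti_pos hs.1 h hs.2.le

theorem v_anti {s t : ℝ} (hs : 0 ≤ s) (hst : s ≤ t) : v t ≤ v s := by
  rcases hs.eq_or_lt with h | h
  · rw [← h, v_zero]
    exact v_le_one (hs.trans hst)
  · exact v_anti_pos h (lt_of_lt_of_le h hst) hst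

theorem v_le {t : ℝ} (ht : 0 < t) : v t ≤ 12 / t ^ 2 := by
  rw [v_pos_eq ht.ne', div_le_div_iff₀ (by positivity) (by positivity)]
  have h1 : - t ≤ Real.sin t := by
    have h3 := Real.sin_le ht.le
    have h4 := Real.abs_sin_le_abs (x := t)
    rw [abs_of_pos ht] at h4
    exact (abs_le.mp h4).1
  have h2 : 6 * (t - Real.sin t) * t ^ 2 ≤ 6 * (2 * t) * t ^ 2 := by
    apply mul_le_mul_of_nonneg_right _ (by positivity)
    linarith
  calc 6 * (t - Real.sin t) * t ^ 2 ≤ 6 * (2 * t) * t ^ 2 := h2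
    _ = 12 * t ^ 3 := by ring

theorem by_parts (A : ℕ → ℂ) (w : ℕ → ℝ) (N : ℕ) :
    ∑ n ∈ Finset.range (N + 1), (w n : ℂ) * A n =
      (w N : ℂ) * (∑ n ∈ Finset.range (N + 1), A n) +
      ∑ n ∈ Finset.range N, ((w n - w (n + 1) : ℝ) : ℂ) * (∑ i ∈ Finset.range (n + 1), A i) := by
  induction N with
  | zero => simp
  | succ N ih =>
    rw [Finset.sum_range_succ, ih, Finset.sum_range_succ A (N + 1),
      Finset.sum_range_succ (fun n => ((w n - w (n + 1) : ℝ) : ℂ) * (∑ i ∈ Finset.range (n + 1), A i))]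
    push_cast
    ring

theorem partial_bound {A : ℕ → ℂ} {w : ℕ → ℝ} (hw : Antitone w) (hw0 : ∀ n, 0 ≤ w n) {B ε : ℝ}
    (hB : ∀ n, ‖∑ i ∈ Finset.range (n + 1), A i‖ ≤ B) {n0 : ℕ}
    (hε : ∀ n, n0 ≤ n → ‖∑ i ∈ Finset.range (n + 1), A i‖ ≤ ε) {N : ℕ} (hN : n0 ≤ N) :
    ‖∑ n ∈ Finset.range (N + 1), (w n : ℂ) * A n‖ ≤ (w 0 - w n0) * B + w n0 * ε := by
  have htel : ∀ m n : ℕ, m ≤ n → ∑ i ∈ Finset.Ico m n, (w i - w (i + 1)) = w m - w n := by
    intro m n hmn
    have h1 := Finset.sum_Ico_sub w hmn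
    have h2 : ∑ i ∈ Finset.Ico m n, (w i - w (i + 1)) = - ∑ i ∈ Finset.Ico m n, (w (i + 1) - w i) := by
      rw [← Finset.sum_neg_distrib]
      exact Finset.sum_congr rfl fun i _ => by ring
    rw [h2, h1]
    ring
  rw [by_parts]
  have h1 : ‖(w N : ℂ) * (∑ n ∈ Finset.range (N + 1), A n)‖ ≤ w N * ε := by
    rw [norm_mul, Complex.norm_real, Real.norm_of_nonneg (hw0 N)]
    exact mul_le_mul_of_nonneg_left (hε N hN) (hw0 N)
  have h2 : ‖∑ n ∈ Finset.range N, ((w n - w (n + 1) : ℝ) : ℂ) * (∑ i ∈ Finset.range (n + 1), A i)‖ ≤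
      (w 0 - w n0) * B + (w n0 - w N) * ε := by
    refine (norm_sum_le _ _).trans ?_
    rw [Finset.range_eq_Ico, ← Finset.sum_Ico_consecutive _ (Nat.zero_le n0) hN]
    have hd : ∀ n, 0 ≤ w n - w (n + 1) := fun n => sub_nonneg.mpr (hw (Nat.le_succ n))
    have h3 : ∑ n ∈ Finset.Ico 0 n0, ‖((w n - w (n + 1) : ℝ) : ℂ) * (∑ i ∈ Finset.range (n + 1), A i)‖
        ≤ ∑ n ∈ Finset.Ico 0 n0, (w n - w (n + 1)) * B := by
      apply Finset.sum_le_sum
      intro n _
      rw [norm_mul, Complex.norm_real, Real.norm_of_nonneg (hd n)]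
      exact mul_le_mul_of_nonneg_left (hB n) (hd n)
    have h4 : ∑ n ∈ Finset.Ico n0 N, ‖((w n - w (n + 1) : ℝ) : ℂ) * (∑ i ∈ Finset.range (n + 1), A i)‖
        ≤ ∑ n ∈ Finset.Ico n0 N, (w n - w (n + 1)) * ε := by
      apply Finset.sum_le_sum
      intro n hn
      rw [norm_mul, Complex.norm_real, Real.norm_of_nonneg (hd n)]
      exact mul_le_mul_of_nonneg_left (hε n (Finset.mem_Ico.mp hn).1) (hd n)
    rw [← Finset.sum_mul, htel _ _ (Nat.zero_le n0)] at h3
    rw [← Finset.sum_mul, htel _ _ hN] at h4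
    exact add_le_add h3 h4
  refine (norm_add_le _ _).trans ?_
  linarith

/-- Regularity of the summation methods with decreasing weights. -/
theorem abel {A : ℕ → ℂ} (hA : Tendsto (fun N => ∑ n ∈ Finset.range (N + 1), A n) atTop (𝓝 0))
    {w : ℝ → ℕ → ℝ} (hw : ∀ h, 0 < h → Antitone (w h)) (hw0 : ∀ h, 0 < h → ∀ n, 0 ≤ w h n)
    (hw1 : ∀ n, Tendsto (fun h => w h n) (𝓝[>] 0) (𝓝 1)) {G : ℝ → ℂ}
    (hG : ∀ h, 0 < h → HasSum (fun n => (w h n : ℂ) * A n) (G h)) :
    Tendsto G (𝓝[>] 0) (𝓝 0) := by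
  rw [Metric.tendsto_nhds]
  intro ε hε
  obtain ⟨B, hB⟩ : ∃ B, ∀ n, ‖∑ i ∈ Finset.range (n + 1), A i‖ ≤ B := by
    obtain ⟨B, hB⟩ := (Metric.isBounded_range_of_tendsto _ hA).exists_norm_le
    exact ⟨B, fun n => hB _ ⟨n, rfl⟩⟩
  obtain ⟨n0, hn0⟩ : ∃ n0, ∀ n, n0 ≤ n → ‖∑ i ∈ Finset.range (n + 1), A i‖ ≤ ε / 2 := by
    have := (Metric.tendsto_atTop.mp hA) (ε / 2) (by positivity)
    obtain ⟨n0, h⟩ := this
    refine ⟨n0, fun n hn => ?_⟩
    have := h n hn
    rw [dist_zero_right] at this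
    exact this.le
  have hlim : Tendsto (fun h => (w h 0 - w h n0) * B + w h n0 * (ε / 2)) (𝓝[>] 0) (𝓝 (ε / 2)) := by
    have := (((hw1 0).sub (hw1 n0)).mul_const B).add ((hw1 n0).mul_const (ε / 2))
    simpa using this
  have hev := hlim.eventually_lt_const (half_lt_self hε)
  filter_upwards [hev, self_mem_nhdsWithin] with h hh hh0
  rw [dist_zero_right]
  refine lt_of_le_of_lt ?_ hh
  have h1 : Tendsto (fun N => ‖∑ n ∈ Finset.range (N + 1), (w h n : ℂ) * A n‖) atTop (𝓝 ‖G h‖) :=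
    (((hG h hh0).tendsto_sum_nat).comp (tendsto_add_atTop_nat 1)).norm
  apply le_of_tendsto h1
  filter_upwards [eventually_ge_atTop n0] with N hN
  exact partial_bound (hw h hh0) (hw0 h hh0) hB hn0 hN

end Pool.Agent.Y249.SU
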