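import Pool.Agent.Y249.SU.Convex
import Pool.Agent.Y249.SU.Weight

/-!
# Cantor's uniqueness theorem for trigonometric series
-/

set_option autoImplicit false

open MeasureTheory Filter Topology

namespace Pool.Agent.Y249.SU

/-- The exponentials. -/
noncomputable def E (n : ℤ) (x : ℝ) : ℂ :=
  Complex.exp (2 * (Real.pi : ℂ) * Complex.I * (n : ℂ) * (x : ℂ))

theorem norm_E (n : ℤ) (x : ℝ) : ‖E n x‖ = 1 := by
  have h : (2 * (Real.pi : ℂ) * Complex.I * (n : ℂ) * (x : ℂ)) =
      ((2 * Real.pi * n * x : ℝ) : ℂ) * Complex.I := by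
    push_cast
    ring
  rw [E, h, Complex.norm_exp_ofReal_mul_I]

theorem E_zero (x : ℝ) : E 0 x = 1 := by simp [E]

theorem E_zero' (n : ℤ) : E n 0 = 1 := by simp [E]

theorem E_add (n : ℤ) (x y : ℝ) : E n (x + y) = E n x * E n y := by
  rw [E, E, E, ← Complex.exp_add]
  congr 1
  push_cast
  ring

theorem E_add_left (m n : ℤ) (x : ℝ) : E (m + n) x = E m x * E n x := by
  rw [E, E, E, ← Complex.exp_add]
  congr 1
  push_cast
  ring

theorem E_one (n : ℤ) : E n 1 = 1 := by
  have h : (2 * (Real.pi : ℂ) * Complex.I * (n : ℂ) * ((1 : ℝ) : ℂ)) =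
      n * (2 * Real.pi * Complex.I) := by
    push_cast
    ring
  rw [E, h, Complex.exp_int_mul_two_pi_mul_I]

theorem E_sub_neg (n : ℤ) (h : ℝ) :
    E n h - E n (-h) = 2 * Complex.I * (Real.sin (2 * Real.pi * n * h) : ℝ) := by
  have h1 : E n h = Complex.exp (((2 * Real.pi * n * h : ℝ) : ℂ) * Complex.I) := by
    rw [E]
    congr 1
    push_cast
    ring
  have h2 : E n (-h) = Complex.exp (-((2 * Real.pi * n * h : ℝ) : ℂ) * Complex.I) := by
    rw [E]
    congr 1
    push_cast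
    ring
  rw [h1, h2, Complex.exp_mul_I, Complex.exp_mul_I, Complex.cos_neg, Complex.sin_neg,
    ← Complex.ofReal_sin, ← Complex.ofReal_cos]
  ring

theorem continuous_E (n : ℤ) : Continuous (E n) := by
  unfold E
  fun_prop

theorem hasDerivAt_E (n : ℤ) (x : ℝ) :
    HasDerivAt (E n) ((2 * Real.pi * Complex.I * n) * E n x) x := by
  unfold E
  have h1 : HasDerivAt (fun y : ℝ => (2 * (Real.pi : ℂ) * Complex.I * (n : ℂ)) * (y : ℂ))
      ((2 * (Real.pi : ℂ) * Complex.I * (n : ℂ)) * 1) x :=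
    (Complex.ofRealCLM.hasDerivAt).const_mul _
  exact h1.cexp.congr_deriv (by ring)

theorem integral_E (n : ℤ) (hn : n ≠ 0) (x h : ℝ) :
    ∫ y in (x - h)..(x + h), E n y =
      E n x * ((Real.sin (2 * Real.pi * n * h) / (Real.pi * n) : ℝ) : ℂ) := by
  have hc : (2 * (Real.pi : ℂ) * Complex.I * n) ≠ 0 := by
    have h1 : (Real.pi : ℂ) ≠ 0 := Complex.ofReal_ne_zero.mpr Real.pi_ne_zero
    have h2 : (n : ℂ) ≠ 0 := Int.cast_ne_zero.mpr hn
    have h3 := Complex.I_ne_zero
    exact mul_ne_zero (mul_ne_zero (mul_ne_zero two_ne_zero h1) h3) h2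
  have h1 : ∀ y ∈ Set.uIcc (x - h) (x + h),
      HasDerivAt (fun y => E n y / (2 * Real.pi * Complex.I * n)) (E n y) y := by
    intro y _
    have := (hasDerivAt_E n y).div_const (2 * Real.pi * Complex.I * n)
    exact this.congr_deriv (by field_simp)
  rw [intervalIntegral.integral_eq_sub_of_hasDerivAt h1 ((continuous_E n).intervalIntegrable _ _)]
  rw [← sub_div, sub_eq_add_neg x h, E_add, E_add, ← mul_sub, E_sub_neg]
  have h1 : (Real.pi : ℂ) ≠ 0 := Complex.ofReal_ne_zero.mpr Real.pi_ne_zero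
  have h2 : (n : ℂ) ≠ 0 := Int.cast_ne_zero.mpr hn
  have h3 := Complex.I_ne_zero
  push_cast
  field_simp

/-- The `n`-th symmetric term. -/
noncomputable def A (c : ℤ → ℂ) (n : ℕ) (x : ℝ) : ℂ :=
  if n = 0 then c 0 else c n * E n x + c (-n) * E (-n) x

theorem A_succ (c : ℤ → ℂ) (n : ℕ) (x : ℝ) : A c (n + 1) x =
    c ((n + 1 : ℕ) : ℤ) * E ((n + 1 : ℕ) : ℤ) x + c (-((n + 1 : ℕ) : ℤ)) * E (-((n + 1 : ℕ) : ℤ)) x := by
  simp [A]

/-- The symmetric partial sums. -/
noncomputable def S (c : ℤ → ℂ) (N : ℕ) (x : ℝ) : ℂ := ∑ n ∈ Finset.Icc (-(N : ℤ)) (N : ℤ), c n * E n x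

theorem Icc_succ (N : ℕ) : Finset.Icc (-((N + 1 : ℕ) : ℤ)) ((N + 1 : ℕ) : ℤ) =
    insert ((N + 1 : ℕ) : ℤ) (insert (-((N + 1 : ℕ) : ℤ)) (Finset.Icc (-(N : ℤ)) (N : ℤ))) := by
  ext k
  simp only [Finset.mem_Icc, Finset.mem_insert]
  push_cast
  omega

theorem S_succ (c : ℤ → ℂ) (N : ℕ) (x : ℝ) : S c (N + 1) x = S c N x + A c (N + 1) x := by
  rw [S, Icc_succ, Finset.sum_insert, Finset.sum_insert, A_succ, ← S]
  · ring
  · simp only [Finset.mem_Icc]
    push_cast
    omega
  · simp only [Finset.mem_Icc, Finset.mem_insert]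
    push_cast
    omega

theorem S_eq (c : ℤ → ℂ) (N : ℕ) (x : ℝ) : S c N x = ∑ n ∈ Finset.range (N + 1), A c n x := by
  induction N with
  | zero => simp [S, A, E_zero]
  | succ N ih => rw [S_succ, ih, ← Finset.sum_range_succ]

theorem norm_A_le {c : ℤ → ℂ} {B : ℝ} (hB : ∀ n, ‖c n‖ ≤ B) (n : ℕ) (x : ℝ) :
    ‖A c n x‖ ≤ 2 * B := by
  have hB0 : 0 ≤ B := (norm_nonneg _).trans (hB 0)
  unfold A
  split_ifs
  · linarith [hB 0]
  · refine (norm_add_le _ _).trans ?_
    rw [norm_mul, norm_mul, norm_E, norm_E, mul_one, mul_one]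
    linarith [hB n, hB (-n)]

theorem continuous_A (c : ℤ → ℂ) (n : ℕ) : Continuous (A c n) := by
  rcases n with _ | n
  · have : A c 0 = fun _ => c 0 := by
      ext x
      simp [A]
    rw [this]
    exact continuous_const
  · have : A c (n + 1) = fun x => c ((n + 1 : ℕ) : ℤ) * E ((n + 1 : ℕ) : ℤ) x +
        c (-((n + 1 : ℕ) : ℤ)) * E (-((n + 1 : ℕ) : ℤ)) x := by
      ext x
      exact A_succ c n x
    rw [this]
    have h1 := continuous_E ((n + 1 : ℕ) : ℤ)
    have h2 := continuous_E (-((n + 1 : ℕ) : ℤ))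
    fun_prop

theorem A_add_one (c : ℤ → ℂ) (n : ℕ) (x : ℝ) : A c n (x + 1) = A c n x := by
  unfold A
  split_ifs
  · rfl
  · rw [E_add, E_add, E_one, E_one, mul_one, mul_one]

theorem integral_A (c : ℤ → ℂ) (n : ℕ) (x h : ℝ) :
    ∫ y in (x - h)..(x + h), A c (n + 1) y =
      A c (n + 1) x * ((Real.sin (2 * Real.pi * (n + 1 : ℕ) * h) / (Real.pi * (n + 1 : ℕ)) : ℝ) : ℂ) := by
  have h0 : ((n + 1 : ℕ) : ℤ) ≠ 0 := by omega
  have h0' : -((n + 1 : ℕ) : ℤ) ≠ 0 := by omega
  simp only [A_succ]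
  rw [intervalIntegral.integral_add, intervalIntegral.integral_const_mul,
    intervalIntegral.integral_const_mul, integral_E _ h0, integral_E _ h0']
  · have h1 : Real.sin (2 * Real.pi * ((-((n + 1 : ℕ) : ℤ) : ℤ) : ℝ) * h) /
        (Real.pi * ((-((n + 1 : ℕ) : ℤ) : ℤ) : ℝ)) =
        Real.sin (2 * Real.pi * (n + 1 : ℕ) * h) / (Real.pi * (n + 1 : ℕ)) := by
      rw [Int.cast_neg, Int.cast_natCast]
      rw [show 2 * Real.pi * -((n + 1 : ℕ) : ℝ) * h = -(2 * Real.pi * ((n + 1 : ℕ) : ℝ) * h) by ring,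
        Real.sin_neg, mul_neg, neg_div_neg_eq]
    rw [h1, Int.cast_natCast]
    ring
  · exact ((continuous_E _).const_mul _).intervalIntegrable _ _
  · exact ((continuous_E _).const_mul _).intervalIntegrable _ _

/-- The coefficients of the second integral. -/
noncomputable def q (n : ℕ) : ℝ := 1 / (4 * Real.pi ^ 2 * ((n : ℝ) + 1) ^ 2)

theorem q_pos (n : ℕ) : 0 < q n := by
  unfold q
  have := Real.pi_pos
  positivity

theorem summable_q : Summable q := by
  have h1 : Summable (fun n : ℕ => 1 / ((n : ℝ) + 1) ^ 2) := by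
    have := (summable_nat_add_iff 1).mpr (Real.summable_one_div_nat_pow.mpr (by norm_num : 1 < 2))
    simpa using this
  have h2 : q = fun n : ℕ => (1 / (4 * Real.pi ^ 2)) * (1 / ((n : ℝ) + 1) ^ 2) := by
    ext n
    unfold q
    have := Real.pi_pos
    field_simp
  rw [h2]
  exact h1.mul_left _

/-- The second integral without the term of index zero. -/
noncomputable def Q (c : ℤ → ℂ) (x : ℝ) : ℂ := ∑' n : ℕ, (q n : ℂ) * A c (n + 1) x

theorem norm_term_le {c : ℤ → ℂ} {B : ℝ} (hB : ∀ n, ‖c n‖ ≤ B) (n : ℕ) (x : ℝ) :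
    ‖(q n : ℂ) * A c (n + 1) x‖ ≤ q n * (2 * B) := by
  rw [norm_mul, Complex.norm_real, Real.norm_of_nonneg (q_pos n).le]
  exact mul_le_mul_of_nonneg_left (norm_A_le hB _ _) (q_pos n).le

theorem hasSum_Q {c : ℤ → ℂ} {B : ℝ} (hB : ∀ n, ‖c n‖ ≤ B) (x : ℝ) :
    HasSum (fun n : ℕ => (q n : ℂ) * A c (n + 1) x) (Q c x) :=
  (Summable.of_norm_bounded (summable_q.mul_right _) (fun n => norm_term_le hB n x)).hasSum

theorem continuous_Q {c : ℤ → ℂ} {B : ℝ} (hB : ∀ n, ‖c n‖ ≤ B) : Continuous (Q c) :=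
  continuous_tsum (fun n => (continuous_A c (n + 1)).const_mul _) (summable_q.mul_right _)
    (fun n x => norm_term_le hB n x)

theorem integral_Q {c : ℤ → ℂ} {B : ℝ} (hB : ∀ n, ‖c n‖ ≤ B) (x h : ℝ) :
    HasSum (fun n : ℕ => (q n : ℂ) * (A c (n + 1) x *
      ((Real.sin (2 * Real.pi * (n + 1 : ℕ) * h) / (Real.pi * (n + 1 : ℕ)) : ℝ) : ℂ)))
      (∫ y in (x - h)..(x + h), Q c y) := by
  have h1 := intervalIntegral.hasSum_integral_of_dominated_convergence
    (μ := volume) (a := x - h) (b := x + h)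
    (F := fun (n : ℕ) (y : ℝ) => (q n : ℂ) * A c (n + 1) y) (f := Q c)
    (fun (n : ℕ) (_ : ℝ) => q n * (2 * B))
    (fun n => ((continuous_A c (n + 1)).const_mul _).aestronglyMeasurable)
    (fun n => Eventually.of_forall fun y _ => norm_term_le hB n y)
    (Eventually.of_forall fun y _ => summable_q.mul_right _)
    (by exact _root_.intervalIntegrable_const)
    (Eventually.of_forall fun y _ => hasSum_Q hB y)
  simp only [intervalIntegral.integral_const_mul, integral_A] at h1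
  exact h1

/-- The mean of a complex function. -/
noncomputable def cmean (F : ℝ → ℂ) (h x : ℝ) : ℂ :=
  (1 / (2 * h) : ℝ) * ∫ y in (x - h)..(x + h), F y

/-- The second integral. -/
noncomputable def FF (c : ℤ → ℂ) (x : ℝ) : ℂ := c 0 * ((x ^ 2 / 2 : ℝ) : ℂ) - Q c x

theorem continuous_FF {c : ℤ → ℂ} {B : ℝ} (hB : ∀ n, ‖c n‖ ≤ B) : Continuous (FF c) := by
  unfold FF
  have := continuous_Q hB
  fun_prop

theorem integral_sq (x h : ℝ) :
    ∫ y in (x - h)..(x + h), ((y ^ 2 / 2 : ℝ) : ℂ) = ((2 * h * (x ^ 2 / 2) + h ^ 3 / 3 : ℝ) : ℂ) := by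
  rw [intervalIntegral.integral_ofReal, intervalIntegral.integral_div, integral_pow]
  congr 1
  norm_num
  ring

theorem second_diff {c : ℤ → ℂ} {B : ℝ} (hB : ∀ n, ‖c n‖ ≤ B) (x : ℝ) {h : ℝ} (hh : 0 < h) :
    HasSum (fun n : ℕ => (v (2 * Real.pi * n * h) : ℂ) * A c n x)
      ((6 / h ^ 2 : ℝ) * (cmean (FF c) h x - FF c x)) := by
  have hpi := Real.pi_pos
  have h1 : cmean (FF c) h x - FF c x = c 0 * ((h ^ 2 / 6 : ℝ) : ℂ) +
      (Q c x - (1 / (2 * h) : ℝ) * ∫ y in (x - h)..(x + h), Q c y) := by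
    unfold cmean FF
    rw [intervalIntegral.integral_sub, intervalIntegral.integral_const_mul, integral_sq]
    · have hc : (h : ℂ) ≠ 0 := Complex.ofReal_ne_zero.mpr hh.ne'
      push_cast
      field_simp
      ring
    · apply Continuous.intervalIntegrable
      fun_prop
    · exact (continuous_Q hB).intervalIntegrable _ _
  have h2 := ((hasSum_Q hB x).sub ((integral_Q hB x h).mul_left ((1 / (2 * h) : ℝ) : ℂ))).mul_left
    ((6 / h ^ 2 : ℝ) : ℂ)
  have h3 : (fun n : ℕ => ((6 / h ^ 2 : ℝ) : ℂ) * ((q n : ℂ) * A c (n + 1) x -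
      ((1 / (2 * h) : ℝ) : ℂ) * ((q n : ℂ) * (A c (n + 1) x *
      ((Real.sin (2 * Real.pi * (n + 1 : ℕ) * h) / (Real.pi * (n + 1 : ℕ)) : ℝ) : ℂ))))) =
      fun n : ℕ => (v (2 * Real.pi * (n + 1 : ℕ) * h) : ℂ) * A c (n + 1) x := by
    ext n
    have hn : (0 : ℝ) < ((n + 1 : ℕ) : ℝ) := by positivity
    have ht : 2 * Real.pi * (n + 1 : ℕ) * h ≠ 0 := by positivity
    rw [v_pos_eq ht]
    have h4 : (6 / h ^ 2) * (q n - (1 / (2 * h)) * (q n *
        (Real.sin (2 * Real.pi * (n + 1 : ℕ) * h) / (Real.pi * (n + 1 : ℕ))))) =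
        6 * (2 * Real.pi * (n + 1 : ℕ) * h - Real.sin (2 * Real.pi * (n + 1 : ℕ) * h)) /
          (2 * Real.pi * (n + 1 : ℕ) * h) ^ 3 := by
      unfold q
      push_cast
      field_simp
      ring
    rw [← h4]
    push_cast
    ring
  rw [h3] at h2
  have h4 := (hasSum_nat_add_iff (f := fun n : ℕ => (v (2 * Real.pi * n * h) : ℂ) * A c n x) 1).mp h2
  have h5 : ((6 / h ^ 2 : ℝ) : ℂ) * (cmean (FF c) h x - FF c x) =
      ((6 / h ^ 2 : ℝ) : ℂ) * (Q c x - ((1 / (2 * h) : ℝ) : ℂ) * ∫ y in (x - h)..(x + h), Q c y) +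
      ∑ i ∈ Finset.range 1, (v (2 * Real.pi * i * h) : ℂ) * A c i x := by
    rw [h1, Finset.sum_range_one, Nat.cast_zero, mul_zero, zero_mul, v_zero, mul_add]
    have h6 : A c 0 x = c 0 := by simp [A]
    have hc : (h : ℂ) ≠ 0 := Complex.ofReal_ne_zero.mpr hh.ne'
    have h7 : ((6 / h ^ 2 : ℝ) : ℂ) * (c 0 * ((h ^ 2 / 6 : ℝ) : ℂ)) = c 0 := by
      push_cast
      field_simp
    rw [h6, h7]
    push_cast
    ring
  rw [h5]
  exact h4

theorem tendsto_second {c : ℤ → ℂ} {B : ℝ} (hB : ∀ n, ‖c n‖ ≤ B) {x : ℝ}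
    (hx : Tendsto (fun N : ℕ => S c N x) atTop (𝓝 0)) :
    Tendsto (fun h : ℝ => ((6 / h ^ 2 : ℝ) : ℂ) * (cmean (FF c) h x - FF c x)) (𝓝[>] 0) (𝓝 0) := by
  have hpi := Real.pi_pos
  refine abel (A := fun n => A c n x) (w := fun h n => v (2 * Real.pi * n * h)) ?_ ?_ ?_ ?_ ?_
  · refine hx.congr fun N => ?_
    rw [S_eq]
  · intro h hh m n hmn
    apply v_anti (by positivity)
    have : (m : ℝ) ≤ n := by exact_mod_cast hmn
    gcongr
  · intro h hh n
    exact v_nonneg (by positivity)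
  · intro n
    rcases Nat.eq_zero_or_pos n with h0 | h0
    · subst h0
      simp only [Nat.cast_zero, mul_zero, zero_mul, v_zero]
      exact tendsto_const_nhds
    · have hn : (0 : ℝ) < n := by exact_mod_cast h0
      apply v_tendsto.comp
      apply tendsto_nhdsWithin_of_tendsto_nhds_of_eventually_within
      · have : Tendsto (fun h : ℝ => 2 * Real.pi * n * h) (𝓝 0) (𝓝 (2 * Real.pi * n * 0)) :=
          (continuous_const.mul continuous_id).tendsto 0
        rw [mul_zero] at this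
        exact this.mono_left nhdsWithin_le_nhds
      · filter_upwards [self_mem_nhdsWithin] with h hh
        have hh : 0 < h := hh
        exact Set.mem_Ioi.mpr (by positivity)
  · intro h hh
    exact second_diff hB x hh

theorem affine_FF {c : ℤ → ℂ} {B : ℝ} (hB : ∀ n, ‖c n‖ ≤ B)
    (hx : ∀ x, Tendsto (fun N : ℕ => S c N x) atTop (𝓝 0)) :
    ∃ α β : ℂ, ∀ x : ℝ, FF c x = α * x + β := by
  have hcont := continuous_FF hB
  have hre : ∀ x h, mean (fun y => (FF c y).re) h x = (cmean (FF c) h x).re := by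
    intro x h
    unfold mean cmean
    rw [Complex.re_ofReal_mul]
    congr 1
    exact Complex.reCLM.intervalIntegral_comp_comm (hcont.intervalIntegrable _ _)
  have him : ∀ x h, mean (fun y => (FF c y).im) h x = (cmean (FF c) h x).im := by
    intro x h
    unfold mean cmean
    rw [Complex.im_ofReal_mul]
    congr 1
    exact Complex.imCLM.intervalIntegral_comp_comm (hcont.intervalIntegrable _ _)
  obtain ⟨α1, β1, h1⟩ := affine_of_zero (F := fun y => (FF c y).re)
    (Complex.continuous_re.comp hcont) (by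
      intro x
      have := (Complex.continuous_re.tendsto 0).comp (tendsto_second hB (hx x))
      refine this.congr fun h => ?_
      simp only [Function.comp]
      rw [Complex.re_ofReal_mul, Complex.sub_re, hre]
      ring)
  obtain ⟨α2, β2, h2⟩ := affine_of_zero (F := fun y => (FF c y).im)
    (Complex.continuous_im.comp hcont) (by
      intro x
      have := (Complex.continuous_im.tendsto 0).comp (tendsto_second hB (hx x))
      refine this.congr fun h => ?_
      simp only [Function.comp]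
      rw [Complex.im_ofReal_mul, Complex.sub_im, him]
      ring)
  refine ⟨⟨α1, α2⟩, ⟨β1, β2⟩, fun x => ?_⟩
  apply Complex.ext
  · rw [h1]
    simp
  · rw [h2]
    simp

theorem Q_add_one (c : ℤ → ℂ) (x : ℝ) : Q c (x + 1) = Q c x := by
  unfold Q
  simp only [A_add_one]

theorem integral_E_unit (n : ℤ) (hn : n ≠ 0) : ∫ y in (0 : ℝ)..1, E n y = 0 := by
  have h := integral_E n hn (1 / 2) (1 / 2)
  rw [show (1 / 2 - 1 / 2 : ℝ) = 0 by norm_num, show (1 / 2 + 1 / 2 : ℝ) = 1 by norm_num] at h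
  rw [h]
  have : Real.sin (2 * Real.pi * n * (1 / 2)) = 0 := by
    rw [show 2 * Real.pi * n * (1 / 2) = n * Real.pi by ring]
    exact Real.sin_int_mul_pi n
  rw [this]
  simp

theorem integral_E_zero : ∫ y in (0 : ℝ)..1, E 0 y = 1 := by
  simp [E_zero]

/-- Cantor's uniqueness theorem: a trigonometric series with bounded coefficients that converges to
zero everywhere vanishes. -/
theorem cantor {c : ℤ → ℂ} {B : ℝ} (hB : ∀ n, ‖c n‖ ≤ B)
    (hx : ∀ x, Tendsto (fun N : ℕ => S c N x) atTop (𝓝 0)) (n : ℤ) : c n = 0 := by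
  obtain ⟨α, β, hF⟩ := affine_FF hB hx
  have hQ : ∀ x : ℝ, Q c x = c 0 * ((x ^ 2 / 2 : ℝ) : ℂ) - α * x - β := by
    intro x
    have := hF x
    unfold FF at this
    rw [sub_sub, ← this]
    ring
  have hper : ∀ x : ℝ, c 0 * ((x : ℂ) + 1 / 2) = α := by
    intro x
    have h1 := Q_add_one c x
    rw [hQ, hQ] at h1
    push_cast at h1
    linear_combination h1
  have hc0 : c 0 = 0 := by
    have h1 := hper 0
    have h2 := hper 1
    push_cast at h1 h2
    linear_combination h2 - h1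
  have hα : α = 0 := by
    rw [← hper 0, hc0, zero_mul]
  have hQc : ∀ x : ℝ, Q c x = -β := by
    intro x
    rw [hQ, hc0, hα]
    ring
  -- the coefficients of the constant function
  have key : ∀ m : ℕ, ∀ s : ℤ, (s = 1 ∨ s = -1) → c (s * ((m + 1 : ℕ) : ℤ)) = 0 := by
    intro m s hs
    set k : ℤ := s * ((m + 1 : ℕ) : ℤ) with hk
    have hk0 : k ≠ 0 := by
      rcases hs with h | h <;> rw [hk, h] <;> push_cast <;> omega
    have hEs : ∀ (n : ℕ) (y : ℝ), A c (n + 1) y * E (-k) y =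
        c ((n + 1 : ℕ) : ℤ) * E (((n + 1 : ℕ) : ℤ) + -k) y +
        c (-((n + 1 : ℕ) : ℤ)) * E (-((n + 1 : ℕ) : ℤ) + -k) y := by
      intro n y
      rw [A_succ, E_add_left, E_add_left]
      ring
    have hint : ∀ n : ℕ, ∫ y in (0 : ℝ)..1, (q n : ℂ) * (A c (n + 1) y * E (-k) y) =
        if n = m then (q m : ℂ) * c k else 0 := by
      intro n
      simp only [hEs]
      rw [intervalIntegral.integral_const_mul, intervalIntegral.integral_add,
        intervalIntegral.integral_const_mul, intervalIntegral.integral_const_mul]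
      · split_ifs with hnm
        · subst hnm
          rcases hs with h | h
          · have e1 : ((n + 1 : ℕ) : ℤ) + -k = 0 := by rw [hk, h]; ring
            have e2 : -((n + 1 : ℕ) : ℤ) + -k ≠ 0 := by rw [hk, h]; push_cast; omega
            have e3 : k = ((n + 1 : ℕ) : ℤ) := by rw [hk, h]; ring
            rw [e1, integral_E_zero, integral_E_unit _ e2, e3]
            ring
          · have e1 : ((n + 1 : ℕ) : ℤ) + -k ≠ 0 := by rw [hk, h]; push_cast; omega
            have e2 : -((n + 1 : ℕ) : ℤ) + -k = 0 := by rw [hk, h]; ring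
            have e3 : k = -((n + 1 : ℕ) : ℤ) := by rw [hk, h]; ring
            rw [e2, integral_E_zero, integral_E_unit _ e1, e3]
            ring
        · have hnm' : (n : ℤ) ≠ m := by exact_mod_cast hnm
          have e1 : ((n + 1 : ℕ) : ℤ) + -k ≠ 0 := by
            rcases hs with h | h <;> rw [hk, h] <;> push_cast <;> omega
          have e2 : -((n + 1 : ℕ) : ℤ) + -k ≠ 0 := by
            rcases hs with h | h <;> rw [hk, h] <;> push_cast <;> omega
          rw [integral_E_unit _ e1, integral_E_unit _ e2]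
          ring
      · exact ((continuous_E _).const_mul _).intervalIntegrable _ _
      · exact ((continuous_E _).const_mul _).intervalIntegrable _ _
    have h1 := intervalIntegral.hasSum_integral_of_dominated_convergence
      (μ := volume) (a := (0 : ℝ)) (b := 1)
      (F := fun (n : ℕ) (y : ℝ) => (q n : ℂ) * (A c (n + 1) y * E (-k) y))
      (f := fun y => Q c y * E (-k) y)
      (fun (n : ℕ) (_ : ℝ) => q n * (2 * B))
      (fun n => (((continuous_A c (n + 1)).mul (continuous_E _)).const_mul _).aestronglyMeasurable)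
      (fun n => Eventually.of_forall fun y _ => by
        rw [← mul_assoc, norm_mul, norm_E, mul_one]
        exact norm_term_le hB n y)
      (Eventually.of_forall fun y _ => summable_q.mul_right _)
      (by exact _root_.intervalIntegrable_const)
      (Eventually.of_forall fun y _ => by
        have := (hasSum_Q hB y).mul_right (E (-k) y)
        simpa only [mul_assoc] using this)
    simp only [hint] at h1
    have h2 := h1.unique (hasSum_ite_eq m ((q m : ℂ) * c k))
    have h3 : ∫ y in (0 : ℝ)..1, Q c y * E (-k) y = 0 := by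
      simp only [hQc]
      rw [intervalIntegral.integral_const_mul, integral_E_unit _ (by omega), mul_zero]
    rw [h3] at h2
    have h4 : (q m : ℂ) ≠ 0 := Complex.ofReal_ne_zero.mpr (q_pos m).ne'
    rcases mul_eq_zero.mp h2.symm with h5 | h5
    · exact absurd h5 h4
    · exact h5
  rcases lt_trichotomy n 0 with h | h | h
  · obtain ⟨m, hm⟩ : ∃ m : ℕ, n = -1 * ((m + 1 : ℕ) : ℤ) := ⟨(-n - 1).toNat, by push_cast; omega⟩
    rw [hm]
    exact key m (-1) (Or.inr rfl)
  · rw [h, hc0]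
  · obtain ⟨m, hm⟩ : ∃ m : ℕ, n = 1 * ((m + 1 : ℕ) : ℤ) := ⟨(n - 1).toNat, by push_cast; omega⟩
    rw [hm]
    exact key m 1 (Or.inl rfl)

end Pool.Agent.Y249.SU
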