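import Mathlib

/-!
# Continuous functions with vanishing generalised second derivative are affine

The generalised second derivative used here is the limit of `6 (M_h F - F) / h ^ 2`, where `M_h F` is
the mean of `F` over the interval of radius `h`.
-/

set_option autoImplicit false

open MeasureTheory Filter Topology

namespace Pool.Agent.Y249.SU

/-- The mean over `[x - h, x + h]`. -/
noncomputable def mean (F : ℝ → ℝ) (h x : ℝ) : ℝ := (1 / (2 * h)) * ∫ y in (x - h)..(x + h), F y

theorem mean_max {F : ℝ → ℝ} (hF : Continuous F) {h x k c a b ε M : ℝ} (hh : 0 < h)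
    (hM : ∀ y ∈ Set.Icc (x - h) (x + h), F y - c - k * (y - a) + ε * ((y - a) * (y - b)) ≤ M)
    (hx : M = F x - c - k * (x - a) + ε * ((x - a) * (x - b))) :
    mean F h x - F x ≤ - (ε * h ^ 2 / 3) := by
  have h1 : ∫ y in (x - h)..(x + h), (F y - c - k * (y - a) + ε * ((y - a) * (y - b))) ≤
      ∫ y in (x - h)..(x + h), M := by
    apply intervalIntegral.integral_mono_on (by linarith)
    · apply Continuous.intervalIntegrable
      fun_prop
    · exact continuous_const.intervalIntegrable _ _
    · exact hM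
  have h2 : ∫ y in (x - h)..(x + h), (F y - c - k * (y - a) + ε * ((y - a) * (y - b))) =
      (∫ y in (x - h)..(x + h), F y) +
      ∫ y in (x - h)..(x + h), (- c - k * (y - a) + ε * ((y - a) * (y - b))) := by
    rw [← intervalIntegral.integral_add]
    · apply intervalIntegral.integral_congr
      intro y _
      simp only
      ring
    · exact hF.intervalIntegrable _ _
    · apply Continuous.intervalIntegrable
      fun_prop
  have h3 : ∫ y in (x - h)..(x + h), (- c - k * (y - a) + ε * ((y - a) * (y - b))) =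
      2 * h * (- c - k * (x - a) + ε * ((x - a) * (x - b))) + ε * (2 * h ^ 3 / 3) := by
    have h4 : ∀ y ∈ Set.uIcc (x - h) (x + h), HasDerivAt
        (fun y => - c * y - k * ((y ^ 2) / 2 - a * y) + ε * (y ^ 3 / 3 - (a + b) * (y ^ 2 / 2) + a * b * y))
        (- c - k * (y - a) + ε * ((y - a) * (y - b))) y := by
      intro y _
      have e1 : HasDerivAt (fun y : ℝ => y) 1 y := hasDerivAt_id y
      have e2 : HasDerivAt (fun y : ℝ => y ^ 2) (2 * y) y := by
        simpa using hasDerivAt_pow 2 y
      have e3 : HasDerivAt (fun y : ℝ => y ^ 3) (3 * y ^ 2) y := by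
        simpa using hasDerivAt_pow 3 y
      have := ((e1.const_mul (-c)).sub (((e2.div_const 2).sub (e1.const_mul a)).const_mul k)).add
        ((((e3.div_const 3).sub ((e2.div_const 2).const_mul (a + b))).add
          (e1.const_mul (a * b))).const_mul ε)
      exact this.congr_deriv (by ring)
    rw [intervalIntegral.integral_eq_sub_of_hasDerivAt h4
      (by apply Continuous.intervalIntegrable; fun_prop)]
    ring
  have h5 : ∫ y in (x - h)..(x + h), M = 2 * h * M := by
    rw [intervalIntegral.integral_const, smul_eq_mul]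
    ring
  rw [h2, h3, h5] at h1
  unfold mean
  have h6 : (∫ y in (x - h)..(x + h), F y) ≤ 2 * h * (F x) - ε * (2 * h ^ 3 / 3) := by
    rw [hx] at h1
    linarith
  have h7 : (1 / (2 * h)) * (∫ y in (x - h)..(x + h), F y) ≤
      (1 / (2 * h)) * (2 * h * (F x) - ε * (2 * h ^ 3 / 3)) :=
    mul_le_mul_of_nonneg_left h6 (by positivity)
  have h8 : (1 / (2 * h)) * (2 * h * (F x) - ε * (2 * h ^ 3 / 3)) = F x - ε * h ^ 2 / 3 := by
    field_simp
  linarith

theorem le_chord {F : ℝ → ℝ} (hF : Continuous F)
    (hD : ∀ x, Tendsto (fun h => 6 * (mean F h x - F x) / h ^ 2) (𝓝[>] 0) (𝓝 0)) {a b : ℝ}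
    (hab : a < b) {x : ℝ} (hx : x ∈ Set.Icc a b) :
    F x ≤ F a + (F b - F a) / (b - a) * (x - a) := by
  by_contra hcon
  push Not at hcon
  set k := (F b - F a) / (b - a) with hk
  set η := F x - (F a + k * (x - a)) with hη
  have hη0 : 0 < η := by linarith
  have hba : 0 < b - a := by linarith
  set ε := η / (2 * (b - a) ^ 2) with hε
  have hε0 : 0 < ε := by positivity
  set g : ℝ → ℝ := fun y => F y - F a - k * (y - a) + ε * ((y - a) * (y - b)) with hg
  have hgc : Continuous g := by
    rw [hg]
    fun_prop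
  obtain ⟨x0, hx0, hmax⟩ := isCompact_Icc.exists_isMaxOn (Set.nonempty_Icc.mpr hab.le)
    hgc.continuousOn (s := Set.Icc a b)
  have hgx : 0 < g x := by
    have h1 : (x - a) * (x - b) ≥ - (b - a) ^ 2 := by
      nlinarith [hx.1, hx.2]
    have h2 : ε * ((x - a) * (x - b)) ≥ - (η / 2) := by
      have : ε * (b - a) ^ 2 = η / 2 := by
        rw [hε]
        field_simp
      nlinarith
    simp only [hg]
    have : F x - F a - k * (x - a) = η := by rw [hη]; ring
    rw [this]
    linarith
  have hgx0 : 0 < g x0 := lt_of_lt_of_le hgx (hmax hx)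
  have hga : g a = 0 := by simp [hg]
  have hgb : g b = 0 := by
    simp only [hg, sub_self, mul_zero, add_zero]
    rw [hk]
    field_simp
    ring
  have hx0a : a < x0 := lt_of_le_of_ne hx0.1 (fun h => by rw [← h, hga] at hgx0; exact lt_irrefl _ hgx0)
  have hx0b : x0 < b := lt_of_le_of_ne hx0.2 (fun h => by rw [h, hgb] at hgx0; exact lt_irrefl _ hgx0)
  have hsmall : ∀ᶠ h in 𝓝[>] (0 : ℝ), 6 * (mean F h x0 - F x0) / h ^ 2 ≤ - (2 * ε) := by
    have h1 : ∀ᶠ h in 𝓝[>] (0 : ℝ), h < min (x0 - a) (b - x0) := by
      apply eventually_nhdsWithin_of_eventually_nhds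
      exact eventually_lt_nhds (by
        rw [lt_min_iff]
        constructor <;> linarith)
    filter_upwards [h1, self_mem_nhdsWithin] with h hh hh0
    have hh0 : 0 < h := hh0
    rw [lt_min_iff] at hh
    have h2 := mean_max hF (h := h) (x := x0) (k := k) (c := F a) (a := a) (b := b) (ε := ε) (M := g x0)
      hh0 (fun y hy => hmax (show y ∈ Set.Icc a b from ⟨by linarith [hy.1, hh.1], by linarith [hy.2, hh.2]⟩)) rfl
    rw [div_le_iff₀ (by positivity)]
    nlinarith
  have h3 := le_of_tendsto (hD x0) hsmall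
  linarith

theorem affine_of_zero {F : ℝ → ℝ} (hF : Continuous F)
    (hD : ∀ x, Tendsto (fun h => 6 * (mean F h x - F x) / h ^ 2) (𝓝[>] 0) (𝓝 0)) :
    ∃ α β : ℝ, ∀ x, F x = α * x + β := by
  have hneg : ∀ x, Tendsto (fun h => 6 * (mean (fun y => - F y) h x - (- F x)) / h ^ 2)
      (𝓝[>] 0) (𝓝 0) := by
    intro x
    have h1 := (hD x).neg
    rw [neg_zero] at h1
    refine h1.congr fun h => ?_
    unfold mean
    rw [intervalIntegral.integral_neg]
    ring
  have key : ∀ a b x : ℝ, a < b → x ∈ Set.Icc a b → F x = F a + (F b - F a) / (b - a) * (x - a) := by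
    intro a b x hab hx
    apply le_antisymm (le_chord hF hD hab hx)
    have h1 := le_chord hF.neg hneg hab hx
    simp only [Pi.neg_apply] at h1
    have h2 : (-F b - -F a) / (b - a) = - ((F b - F a) / (b - a)) := by ring
    rw [h2] at h1
    linarith
  refine ⟨F 1 - F 0, F 0, fun x => ?_⟩
  rcases le_or_gt x 1 with h1 | h1
  · rcases le_or_gt 0 x with h0 | h0
    · have := key 0 1 x one_pos ⟨h0, h1⟩
      simp only [sub_zero, div_one] at this
      linarith
    · have := key x 1 0 (by linarith) ⟨h0.le, zero_le_one⟩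
      have hx : (0 : ℝ) < 1 - x := by linarith
      have h3 : (F 1 - F x) / (1 - x) * (0 - x) * (1 - x) = (F 1 - F x) * (0 - x) := by
        field_simp
      have h4 : F 0 * (1 - x) = F x * (1 - x) + (F 1 - F x) * (0 - x) := by
        rw [this, add_mul, h3]
      linarith
  · have := key 0 x 1 (by linarith) ⟨zero_le_one, h1.le⟩
    have hx : (0 : ℝ) < x := by linarith
    simp only [sub_zero] at this
    have h3 : (F x - F 0) / x * 1 * x = F x - F 0 := by
      field_simp
    have h4 : F 1 * x = F 0 * x + (F x - F 0) := by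
      rw [this, add_mul, h3]
    linarith

end Pool.Agent.Y249.SU
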