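import Pool.Agent.Y249.SU.Prob

/-!
# The mass of small sets, and the Fourier transform of the law
-/

set_option autoImplicit false

open MeasureTheory Filter Topology
open scoped ENNReal

namespace Pool.Agent.Y249.SU

variable (S : Set ℕ)

open Classical in
/-- The free positions below `m`. -/
noncomputable def free (m : ℕ) : Finset ℕ := (Finset.range m).filter (fun j => j ∉ S)

theorem mu_pre_le (m p : ℕ) : mu {ω | pre S ω m = p} ≤ (2⁻¹ : ℝ≥0∞) ^ (free S m).card := by
  rcases Set.eq_empty_or_nonempty {ω | pre S ω m = p} with h | ⟨ω0, h0⟩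
  · rw [h]
    simp
  · have hsub : {ω | pre S ω m = p} ⊆ Set.pi (free S m) (fun j => {ω0 j}) := by
      intro ω hω j hj
      have hj' : j ∈ free S m := hj
      unfold free at hj'
      simp only [Finset.mem_filter, Finset.mem_range] at hj'
      have h1 : pre S ω m = pre S ω0 m := by
        rw [Set.mem_ofPred_eq] at hω h0
        rw [hω, h0]
      have h2 := pre_inj S h1 j hj'.1
      unfold bit at h2
      rw [if_neg hj'.2, if_neg hj'.2] at h2
      rw [Set.mem_singleton_iff]
      cases h3 : ω j <;> cases h4 : ω0 j <;> simp_all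
    refine (measure_mono hsub).trans ?_
    unfold mu
    rw [Measure.infinitePi_pi (fun _ => coin) (fun i _ => MeasurableSet.of_discrete)]
    simp only [coin_singleton, Finset.prod_const]
    exact le_refl _

/-- The mass of a set of diameter at most `2 ^ (-m)`. -/
theorem mu_small (U : Set ℝ) (m : ℕ) (hU : ∀ x ∈ U, ∀ y ∈ U, 2 ^ m * |x - y| ≤ 1) :
    mu (X S ⁻¹' U) ≤ 5 * (2⁻¹ : ℝ≥0∞) ^ (free S m).card := by
  rcases Set.eq_empty_or_nonempty (X S ⁻¹' U) with h | ⟨ω0, h0⟩
  · rw [h]
    simp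
  · set p0 := pre S ω0 m with hp0
    have hsub : X S ⁻¹' U ⊆ ⋃ i ∈ Finset.range 5, {ω | pre S ω m = p0 + i - 2} := by
      intro ω hω
      have h1 := hU _ hω _ h0
      obtain ⟨y, hy0, hy1, -, hy⟩ := X_split S ω m
      obtain ⟨z, hz0, hz1, -, hz⟩ := X_split S ω0 m
      have h2 : 2 ^ m * |X S ω - X S ω0| = |(pre S ω m : ℝ) - p0 + (y - z)| := by
        rw [← abs_of_pos (by positivity : (0 : ℝ) < 2 ^ m), ← abs_mul, mul_sub, hy, hz]
        congr 1
        ring
      rw [h2, abs_le] at h1
      have h3 : (pre S ω m : ℝ) ≤ p0 + 2 := by linarith [h1.2]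
      have h4 : (p0 : ℝ) ≤ pre S ω m + 2 := by linarith [h1.1]
      have h3' : pre S ω m ≤ p0 + 2 := by exact_mod_cast h3
      have h4' : p0 ≤ pre S ω m + 2 := by exact_mod_cast h4
      simp only [Set.mem_iUnion, Set.mem_ofPred_eq, Finset.mem_range]
      exact ⟨pre S ω m + 2 - p0, by omega, by omega⟩
    refine (measure_mono hsub).trans ((measure_biUnion_finset_le _ _).trans ?_)
    refine (Finset.sum_le_sum fun i _ => mu_pre_le S m _).trans ?_
    rw [Finset.sum_const, Finset.card_range, nsmul_eq_mul]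
    exact le_refl _

/-- A set with at most one point has mass zero as soon as there are infinitely many free positions. -/
theorem mu_point (hfree : Tendsto (fun m => (free S m).card) atTop atTop) (U : Set ℝ)
    (hU : U.Subsingleton) : mu (X S ⁻¹' U) = 0 := by
  have h1 : ∀ m, mu (X S ⁻¹' U) ≤ 5 * (2⁻¹ : ℝ≥0∞) ^ (free S m).card := by
    intro m
    apply mu_small
    intro x hx y hy
    rw [hU hx hy, sub_self, abs_zero, mul_zero]
    exact zero_le_one
  have h2 : Tendsto (fun m => 5 * (2⁻¹ : ℝ≥0∞) ^ (free S m).card) atTop (𝓝 (5 * 0)) := by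
    apply ENNReal.Tendsto.const_mul _ (Or.inr (by norm_num))
    exact (ENNReal.tendsto_pow_atTop_nhds_zero_of_lt_one (by
      rw [ENNReal.inv_lt_one]
      norm_num)).comp hfree
  rw [mul_zero] at h2
  exact le_antisymm (ge_of_tendsto' h2 h1) bot_le

/-! ### The Fourier transform -/

/-- The exponential. -/
noncomputable def ex (t : ℝ) : ℂ := Complex.exp (2 * Real.pi * Complex.I * t)

theorem norm_ex (t : ℝ) : ‖ex t‖ = 1 := by
  have h : (2 * (Real.pi : ℂ) * Complex.I * (t : ℂ)) = ((2 * Real.pi * t : ℝ) : ℂ) * Complex.I := by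
    push_cast
    ring
  rw [ex, h, Complex.norm_exp_ofReal_mul_I]

theorem ex_add (s t : ℝ) : ex (s + t) = ex s * ex t := by
  rw [ex, ex, ex, ← Complex.exp_add]
  congr 1
  push_cast
  ring

theorem ex_zero : ex 0 = 1 := by simp [ex]

theorem ex_sum (F : Finset ℕ) (f : ℕ → ℝ) : ex (∑ j ∈ F, f j) = ∏ j ∈ F, ex (f j) := by
  induction F using Finset.induction_on with
  | empty => simp [ex_zero]
  | insert j F hj ih => rw [Finset.sum_insert hj, Finset.prod_insert hj, ex_add, ih]

theorem continuous_ex : Continuous ex := by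
  unfold ex
  fun_prop

theorem conj_ex (t : ℝ) : (starRingEnd ℂ) (ex t) = ex (-t) := by
  rw [ex, ex, ← Complex.exp_conj]
  congr 1
  simp only [map_mul, Complex.conj_ofReal, Complex.conj_I, map_ofNat]
  push_cast
  ring

theorem four_abs_le {t : ℝ} (ht : |t| ≤ 1 / 2) : 4 * |t| ≤ ‖1 - ex t‖ := by
  have h1 : ‖1 - ex t‖ = 2 * |Real.sin (Real.pi * t)| := by
    have h2 : ex t = Complex.exp (((2 * Real.pi * t : ℝ) : ℂ) * Complex.I) := by
      rw [ex]
      congr 1
      push_cast
      ring
    have h3 : ‖1 - ex t‖ ^ 2 = (2 * |Real.sin (Real.pi * t)|) ^ 2 := by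
      rw [Complex.sq_norm, Complex.normSq_apply, h2]
      simp only [Complex.sub_re, Complex.sub_im, Complex.one_re, Complex.one_im,
        Complex.exp_ofReal_mul_I_re, Complex.exp_ofReal_mul_I_im]
      rw [mul_pow, sq_abs]
      have h4 : 2 * Real.pi * t = 2 * (Real.pi * t) := by ring
      rw [h4, Real.cos_two_mul, Real.sin_two_mul]
      have h5 := Real.sin_sq_add_cos_sq (Real.pi * t)
      nlinarith
    exact (pow_left_inj₀ (norm_nonneg _) (by positivity) (by norm_num)).mp h3
  rw [h1]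
  have h2 : 2 * |t| ≤ |Real.sin (Real.pi * t)| := by
    have h3 : |Real.sin (Real.pi * t)| = Real.sin (Real.pi * |t|) := by
      rcases le_or_gt 0 t with h | h
      · rw [abs_of_nonneg h, abs_of_nonneg]
        apply Real.sin_nonneg_of_nonneg_of_le_pi
        · have := Real.pi_pos
          positivity
        · rw [abs_of_nonneg h] at ht
          have := Real.pi_pos
          nlinarith
      · rw [abs_of_neg h] at ht ⊢
        rw [mul_neg, Real.sin_neg, abs_of_nonpos]
        have h4 : 0 ≤ Real.sin (Real.pi * (-t)) := by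
          apply Real.sin_nonneg_of_nonneg_of_le_pi
          · have := Real.pi_pos
            have : 0 < -t := by linarith
            positivity
          · have := Real.pi_pos
            nlinarith
        rw [mul_neg, Real.sin_neg] at h4
        linarith
    rw [h3]
    have h4 := Real.mul_le_sin (x := Real.pi * |t|) (by
      have := Real.pi_pos
      positivity) (by
      have := Real.pi_pos
      nlinarith)
    have h5 : 2 / Real.pi * (Real.pi * |t|) = 2 * |t| := by
      have := Real.pi_pos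
      field_simp
    linarith
  linarith

/-- The telescoping product. -/
theorem telescoping (t : ℝ) (s d : ℕ) :
    (1 - ex (t * (1 / 2) ^ (s + 1 + d))) *
      (∏ j ∈ Finset.Ico (s + 1) (s + 1 + d), (1 + ex (t * (1 / 2) ^ (j + 1)))) =
      1 - ex (t * (1 / 2) ^ (s + 1)) := by
  induction d with
  | zero => simp
  | succ d ih =>
    rw [← add_assoc, Finset.prod_Ico_succ_top (by omega)]
    have h1 : ex (t * (1 / 2) ^ (s + 1 + d)) = ex (t * (1 / 2) ^ (s + 1 + d + 1)) *
        ex (t * (1 / 2) ^ (s + 1 + d + 1)) := by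
      rw [← ex_add]
      congr 1
      rw [pow_succ]
      ring
    have h2 : (1 - ex (t * (1 / 2) ^ (s + 1 + d))) = (1 - ex (t * (1 / 2) ^ (s + 1 + d + 1))) *
        (1 + ex (t * (1 / 2) ^ (s + 1 + d + 1))) := by
      rw [h1]
      ring
    rw [← ih, h2]
    ring

theorem X_flip {F : Finset ℕ} {j : ℕ} (hj : j ∈ F) (ω : ℕ → Bool) :
    X S (flip j ω) - ∑ i ∈ F, term S (flip j ω) i = X S ω - ∑ i ∈ F, term S ω i := by
  have h1 : ∀ ω, X S ω - ∑ i ∈ F, term S ω i = ∑' i, if i ∈ F then 0 else term S ω i := by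
    intro ω
    have h2 : HasSum (fun i => if i ∈ F then term S ω i else 0) (∑ i ∈ F, term S ω i) := by
      have h4 : HasSum (fun i => if i ∈ F then term S ω i else 0)
          (∑ i ∈ F, if i ∈ F then term S ω i else 0) :=
        hasSum_sum_of_ne_finset_zero (fun i hi => by simp [hi])
      have h5 : (∑ i ∈ F, if i ∈ F then term S ω i else 0) = ∑ i ∈ F, term S ω i := by
        apply Finset.sum_congr rfl
        intro i hi
        rw [if_pos hi]
      rwa [h5] at h4
    have h3 := (summable_term S ω).hasSum.sub h2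
    rw [X, ← h3.tsum_eq]
    apply tsum_congr
    intro i
    split_ifs <;> simp
  rw [h1, h1]
  apply tsum_congr
  intro i
  split_ifs with hi
  · rfl
  · unfold term
    rw [bit_flip]
    intro h
    rw [h] at hi
    exact hi hj

/-- The Fourier transform of the law of `X` is small at integers with a leading digit in the middle of a
long block of free positions. -/
theorem fourier_small {s s' : ℕ} (hs : s < s') (hfree : ∀ j, s < j → j < s' → j ∉ S) {n : ℝ}
    (hn : 0 < n) (hn2 : 2 * n ≤ 2 ^ s') :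
    ‖∫ ω, ex (n * X S ω) ∂mu‖ ≤ 2 ^ s / n := by
  obtain ⟨d, rfl⟩ : ∃ d, s' = s + 1 + d := ⟨s' - s - 1, by omega⟩
  set F := Finset.Ico (s + 1) (s + 1 + d) with hF
  have hsplit : ∀ ω, ex (n * X S ω) = (∏ j ∈ F, ex (n * (if ω j then (1 / 2) ^ (j + 1) else 0))) *
      ex (n * (X S ω - ∑ i ∈ F, term S ω i)) := by
    intro ω
    rw [← ex_sum, ← ex_add]
    congr 1
    have : ∑ j ∈ F, n * (if ω j then (1 / 2 : ℝ) ^ (j + 1) else 0) = n * ∑ i ∈ F, term S ω i := by
      rw [Finset.mul_sum]
      apply Finset.sum_congr rfl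
      intro j hj
      rw [hF, Finset.mem_Ico] at hj
      unfold term bit
      rw [if_neg (hfree j (by omega) (by omega))]
      split_ifs <;> simp
    rw [this]
    ring
  simp only [hsplit]
  have hXm := measurable_X S
  rw [integral_block F (fun j b => ex (n * (if b then (1 / 2) ^ (j + 1) else 0)))
    (fun j b => (norm_ex _).le)
    (g := fun ω => ex (n * (X S ω - ∑ i ∈ F, term S ω i)))
    (continuous_ex.measurable.comp ((hXm.sub (Finset.measurable_sum _ fun i _ =>
      measurable_term S i)).const_mul n))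
    (fun ω => (norm_ex _).le)
    (fun j hj ω => by rw [X_flip S hj])]
  rw [norm_mul]
  have h1 : ‖∫ ω, ex (n * (X S ω - ∑ i ∈ F, term S ω i)) ∂mu‖ ≤ 1 := by
    have := norm_integral_le_of_norm_le_const (μ := mu) (C := 1)
      (f := fun ω => ex (n * (X S ω - ∑ i ∈ F, term S ω i)))
      (Eventually.of_forall fun ω => (norm_ex _).le)
    simpa using this
  have h2 : (∏ j ∈ F, (ex (n * (if true = true then (1 / 2) ^ (j + 1) else 0)) +
      ex (n * (if false = true then (1 / 2) ^ (j + 1) else 0))) / 2) =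
      (∏ j ∈ F, (1 + ex (n * (1 / 2) ^ (j + 1)))) / 2 ^ d := by
    have hcard : F.card = d := by rw [hF, Nat.card_Ico]; omega
    rw [← hcard, ← Finset.prod_const, ← Finset.prod_div_distrib]
    apply Finset.prod_congr rfl
    intro j _
    simp only [if_true, Bool.false_eq_true, if_false, mul_zero, ex_zero]
    rw [add_comm]
  rw [h2, norm_div, norm_pow]
  have h3 := telescoping n s d
  have h4 := congrArg norm h3
  rw [norm_mul] at h4
  have h5 : ‖1 - ex (n * (1 / 2) ^ (s + 1))‖ ≤ 2 := by
    refine (norm_sub_le _ _).trans ?_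
    rw [norm_one, norm_ex]
    norm_num
  have h6 : |n * (1 / 2) ^ (s + 1 + d)| ≤ 1 / 2 := by
    rw [abs_of_pos (by positivity)]
    have h7 : n * (1 / 2) ^ (s + 1 + d) * 2 ^ (s + 1 + d) = n := by
      rw [mul_assoc, ← mul_pow]
      norm_num
    have h8 : (0 : ℝ) < 2 ^ (s + 1 + d) := by positivity
    have h9 : (n * (1 / 2) ^ (s + 1 + d)) * 2 ^ (s + 1 + d) ≤ (1 / 2) * 2 ^ (s + 1 + d) := by
      rw [h7]
      linarith
    exact le_of_mul_le_mul_right h9 h8
  have h7 := four_abs_le h6
  rw [abs_of_pos (by positivity)] at h7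
  set Q := ‖∏ j ∈ Finset.Ico (s + 1) (s + 1 + d), (1 + ex (n * (1 / 2) ^ (j + 1)))‖ with hQ
  have hQ0 : 0 ≤ Q := norm_nonneg _
  have h8 : 4 * (n * (1 / 2) ^ (s + 1 + d)) * Q ≤ 2 := by
    calc 4 * (n * (1 / 2) ^ (s + 1 + d)) * Q ≤ ‖1 - ex (n * (1 / 2) ^ (s + 1 + d))‖ * Q := by
          gcongr
      _ ≤ 2 := by
          rw [h4]
          exact h5
  have h9 : ‖(2 : ℂ)‖ = 2 := by simp
  rw [h9]
  have h10 : (1 / 2 : ℝ) ^ (s + 1 + d) = 1 / (2 * 2 ^ s * 2 ^ d) := by
    rw [one_div_pow, pow_add, pow_add]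
    congr 1
    ring
  rw [h10] at h8
  have h11 : Q / 2 ^ d ≤ 2 ^ s / n := by
    rw [div_le_div_iff₀ (by positivity) hn]
    have h12 : 4 * (n * (1 / (2 * 2 ^ s * 2 ^ d))) * Q * (2 ^ s * 2 ^ d) ≤ 2 * (2 ^ s * 2 ^ d) := by
      gcongr
    have h13 : 4 * (n * (1 / (2 * 2 ^ s * 2 ^ d))) * Q * (2 ^ s * 2 ^ d) = 2 * (n * Q) := by
      field_simp
      ring
    rw [h13] at h12
    linarith
  calc Q / 2 ^ d * ‖∫ ω, ex (n * (X S ω - ∑ i ∈ F, term S ω i)) ∂mu‖ ≤ Q / 2 ^ d * 1 := by
        gcongr
    _ ≤ 2 ^ s / n := by rw [mul_one]; exact h11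

end Pool.Agent.Y249.SU
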