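import Pool.Agent.Y249.SU.Mass

/-!
# Normality of the random number in every base
-/

set_option autoImplicit false

open MeasureTheory Filter Topology
open scoped ENNReal

namespace Pool.Agent.Y249.SU

/-- The binary length of `h b ^ i`. -/
def ell (b h i : ℕ) : ℕ := Nat.log 2 (h * b ^ i)

section

variable {b h : ℕ} (hb : 2 ≤ b) (hh : 1 ≤ h)

include hb hh in
theorem ell_le (i : ℕ) : 2 ^ ell b h i ≤ h * b ^ i :=
  Nat.pow_log_le_self 2 (by positivity)

omit hb hh in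
theorem lt_ell (i : ℕ) : h * b ^ i < 2 ^ (ell b h i + 1) :=
  Nat.lt_pow_succ_log_self (by norm_num) _

include hb hh in
theorem ell_strictMono : StrictMono (ell b h) := by
  apply strictMono_nat_of_lt_succ
  intro i
  have h1 := ell_le hb hh i
  have h2 : 2 ^ (ell b h i + 1) ≤ h * b ^ (i + 1) := by
    calc 2 ^ (ell b h i + 1) = 2 ^ ell b h i * 2 := by rw [pow_succ]
      _ ≤ (h * b ^ i) * b := Nat.mul_le_mul h1 hb
      _ = h * b ^ (i + 1) := by rw [pow_succ]; ring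
  exact Nat.lt_of_succ_le (Nat.le_log_of_pow_le (by norm_num) h2)

include hb hh in
theorem ell_bound (i : ℕ) : ell b h i ≤ h + b * i := by
  have h1 : h * b ^ i ≤ 2 ^ (h + b * i) := by
    rw [pow_add, pow_mul]
    exact Nat.mul_le_mul (Nat.lt_two_pow_self).le (Nat.pow_le_pow_left (Nat.lt_two_pow_self).le i)
  have h2 := ell_le hb hh i
  exact (Nat.pow_le_pow_iff_right (by norm_num)).mp (h2.trans h1)

end

/-- The bad exponents. -/
def Bad (s : ℕ → ℕ) (b h R i : ℕ) : Prop := ∃ k, ell b h i ≤ s k + R ∧ s k ≤ ell b h i + 2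

section

variable {s : ℕ → ℕ} (hs : StrictMono s) (hs0 : s 0 = 0) (hs4 : ∀ k, k ^ 4 ≤ s k)
  {b h : ℕ} (hb : 2 ≤ b) (hh : 1 ≤ h)

include hs hs0 hb hh in
theorem corr_small {R i j : ℕ} (hj : j < i) (hi : ¬ Bad s b h R i) :
    ‖∫ ω, ex ((h * (b : ℝ) ^ i - h * (b : ℝ) ^ j) * X (Set.range s) ω) ∂mu‖ ≤ (1 / 2) ^ R := by
  unfold Bad at hi
  push Not at hi
  have h0 : s 0 + R < ell b h i := by
    by_contra hcon
    push Not at hcon
    have := hi 0 hcon
    omega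
  obtain ⟨k, hk1, hk2⟩ : ∃ k, s k + R < ell b h i ∧ ¬ s (k + 1) + R < ell b h i := by
    by_contra hcon
    push Not at hcon
    have hall : ∀ k, s k + R < ell b h i := by
      intro k
      induction k with
      | zero => exact h0
      | succ k ih => exact hcon k ih
    have h1 := hall (ell b h i)
    have h2 := hs.id_le (ell b h i)
    simp only [id] at h2
    omega
  push Not at hk2
  have hk3 : ell b h i + 2 < s (k + 1) := hi (k + 1) hk2
  have e1 : (2 : ℝ) ^ ell b h i ≤ h * (b : ℝ) ^ i := by exact_mod_cast ell_le hb hh i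
  have e2 : h * (b : ℝ) ^ i ≤ 2 ^ (ell b h i + 1) := by exact_mod_cast (lt_ell i).le
  have hb' : (2 : ℝ) ≤ b := by exact_mod_cast hb
  have hh' : (1 : ℝ) ≤ h := by exact_mod_cast hh
  have e3 : 2 * (b : ℝ) ^ j ≤ (b : ℝ) ^ i := by
    obtain ⟨d, rfl⟩ : ∃ d, i = j + 1 + d := ⟨i - j - 1, by omega⟩
    have h3 : (1 : ℝ) ≤ (b : ℝ) ^ d := one_le_pow₀ (by linarith)
    have h4 : (0 : ℝ) < (b : ℝ) ^ j := by positivity
    calc 2 * (b : ℝ) ^ j ≤ b * (b : ℝ) ^ j := by gcongr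
      _ = (b : ℝ) ^ (j + 1) * 1 := by rw [pow_succ]; ring
      _ ≤ (b : ℝ) ^ (j + 1) * (b : ℝ) ^ d := by gcongr
      _ = (b : ℝ) ^ (j + 1 + d) := by rw [← pow_add]
  have hbi : (0 : ℝ) < (b : ℝ) ^ i := by positivity
  have hbj : (0 : ℝ) < (b : ℝ) ^ j := by positivity
  have e4 : h * (b : ℝ) ^ i / 2 ≤ h * (b : ℝ) ^ i - h * (b : ℝ) ^ j := by
    have : h * (2 * (b : ℝ) ^ j) ≤ h * (b : ℝ) ^ i := by gcongr
    linarith
  have hn : 0 < h * (b : ℝ) ^ i - h * (b : ℝ) ^ j := by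
    have : 0 < h * (b : ℝ) ^ i / 2 := by positivity
    linarith
  have hn2 : 2 * (h * (b : ℝ) ^ i - h * (b : ℝ) ^ j) ≤ 2 ^ (s (k + 1)) := by
    have h5 : (2 : ℝ) ^ (ell b h i + 2) ≤ 2 ^ (s (k + 1)) :=
      pow_le_pow_right₀ (by norm_num) (by omega)
    have h6 : (2 : ℝ) ^ (ell b h i + 2) = 2 * 2 ^ (ell b h i + 1) := by ring
    have h7 : 0 < h * (b : ℝ) ^ j := by positivity
    linarith
  have hfree : ∀ l, s k < l → l < s (k + 1) → l ∉ Set.range s := by
    rintro l h1 h2 ⟨m, rfl⟩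
    have := hs.lt_iff_lt.mp h1
    have := hs.lt_iff_lt.mp h2
    omega
  refine (fourier_small (Set.range s) (hs (Nat.lt_succ_self k)) hfree hn hn2).trans ?_
  rw [div_le_iff₀ hn]
  have h8 : (2 : ℝ) ^ (s k + R + 1) ≤ 2 ^ ell b h i := pow_le_pow_right₀ (by norm_num) (by omega)
  have h9 : (1 / 2 : ℝ) ^ R * (2 ^ (s k + R + 1)) = 2 * 2 ^ s k := by
    rw [pow_succ, pow_add, show (1 / 2 : ℝ) ^ R * (2 ^ s k * 2 ^ R * 2) =
      ((1 / 2 : ℝ) ^ R * 2 ^ R) * (2 * 2 ^ s k) by ring, ← mul_pow]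
    norm_num
  have h10 : (0 : ℝ) < (1 / 2 : ℝ) ^ R := by positivity
  have h11 : (1 / 2 : ℝ) ^ R * (2 ^ (s k + R + 1)) ≤
      (1 / 2 : ℝ) ^ R * (2 * (h * (b : ℝ) ^ i - h * (b : ℝ) ^ j)) := by
    apply mul_le_mul_of_nonneg_left _ h10.le
    linarith
  rw [h9] at h11
  linarith

theorem norm_int_ex_le (t : ℝ) : ‖∫ ω, ex (t * X (Set.range s) ω) ∂mu‖ ≤ 1 := by
  have := norm_integral_le_of_norm_le_const (μ := mu) (C := 1)
    (f := fun ω => ex (t * X (Set.range s) ω)) (Eventually.of_forall fun ω => (norm_ex _).le)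
  simpa using this

theorem int_ex_neg (t : ℝ) : ‖∫ ω, ex ((-t) * X (Set.range s) ω) ∂mu‖ =
    ‖∫ ω, ex (t * X (Set.range s) ω) ∂mu‖ := by
  have h1 : ∫ ω, ex ((-t) * X (Set.range s) ω) ∂mu =
      (starRingEnd ℂ) (∫ ω, ex (t * X (Set.range s) ω) ∂mu) := by
    rw [← integral_conj]
    congr 1
    ext ω
    rw [conj_ex, neg_mul]
  rw [h1, RCLike.norm_conj]

open Classical in
/-- The bound of the correlations. -/
noncomputable def tau (s : ℕ → ℕ) (b h R i j : ℕ) : ℝ :=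
  (if i = j then 1 else 0) + (if Bad s b h R i then 1 else 0) + (if Bad s b h R j then 1 else 0) +
    (1 / 2) ^ R

include hs hs0 hb hh in
theorem corr_le (R i j : ℕ) :
    ‖∫ ω, ex ((h * (b : ℝ) ^ i - h * (b : ℝ) ^ j) * X (Set.range s) ω) ∂mu‖ ≤ tau s b h R i j := by
  have h0 := norm_int_ex_le (s := s) (h * (b : ℝ) ^ i - h * (b : ℝ) ^ j)
  have hp : (0 : ℝ) < (1 / 2) ^ R := by positivity
  unfold tau
  have hpos1 : (0 : ℝ) ≤ (if i = j then 1 else 0) := by split_ifs <;> norm_num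
  rcases lt_trichotomy i j with hij | hij | hij
  · by_cases hB : Bad s b h R j
    · rw [if_pos hB]
      have hpos2 : (0 : ℝ) ≤ (open Classical in if Bad s b h R i then 1 else 0) := by
        split_ifs <;> norm_num
      linarith
    · have h1 := corr_small hs hs0 hb hh hij hB
      rw [← int_ex_neg, neg_sub] at h1
      have hpos2 : (0 : ℝ) ≤ (open Classical in if Bad s b h R i then 1 else 0) := by
        split_ifs <;> norm_num
      rw [if_neg hB]
      linarith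
  · rw [if_pos hij]
    have hpos2 : (0 : ℝ) ≤ (open Classical in if Bad s b h R i then 1 else 0) := by
      split_ifs <;> norm_num
    have hpos3 : (0 : ℝ) ≤ (open Classical in if Bad s b h R j then 1 else 0) := by
      split_ifs <;> norm_num
    linarith
  · by_cases hB : Bad s b h R i
    · rw [if_pos hB]
      have hpos2 : (0 : ℝ) ≤ (open Classical in if Bad s b h R j then 1 else 0) := by
        split_ifs <;> norm_num
      linarith
    · have h1 := corr_small hs hs0 hb hh hij hB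
      have hpos2 : (0 : ℝ) ≤ (open Classical in if Bad s b h R j then 1 else 0) := by
        split_ifs <;> norm_num
      rw [if_neg hB]
      linarith

/-- The Weyl sums. -/
noncomputable def Z (s : ℕ → ℕ) (b h N : ℕ) (ω : ℕ → Bool) : ℂ :=
  ∑ i ∈ Finset.range N, ex (h * (b : ℝ) ^ i * X (Set.range s) ω)

theorem measurable_Z (N : ℕ) : Measurable (Z s b h N) := by
  unfold Z
  apply Finset.measurable_sum
  intro i _
  exact continuous_ex.measurable.comp ((measurable_X _).const_mul _)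

theorem norm_Z_sq (N : ℕ) (ω : ℕ → Bool) : ((‖Z s b h N ω‖ ^ 2 : ℝ) : ℂ) =
    ∑ i ∈ Finset.range N, ∑ j ∈ Finset.range N,
      ex ((h * (b : ℝ) ^ i - h * (b : ℝ) ^ j) * X (Set.range s) ω) := by
  have h1 : ((‖Z s b h N ω‖ ^ 2 : ℝ) : ℂ) = Z s b h N ω * (starRingEnd ℂ) (Z s b h N ω) := by
    rw [Complex.mul_conj, Complex.normSq_eq_norm_sq]
  rw [h1, Z, map_sum, Finset.sum_mul_sum]
  apply Finset.sum_congr rfl
  intro i _
  apply Finset.sum_congr rfl
  intro j _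
  rw [conj_ex, ← ex_add]
  congr 1
  ring

theorem integral_Z_sq_eq (N : ℕ) : ((∫ ω, ‖Z s b h N ω‖ ^ 2 ∂mu : ℝ) : ℂ) =
    ∑ i ∈ Finset.range N, ∑ j ∈ Finset.range N,
      ∫ ω, ex ((h * (b : ℝ) ^ i - h * (b : ℝ) ^ j) * X (Set.range s) ω) ∂mu := by
  have hint : ∀ t : ℝ, Integrable (fun ω => ex (t * X (Set.range s) ω)) mu := by
    intro t
    refine Integrable.of_bound
      (continuous_ex.measurable.comp ((measurable_X _).const_mul _)).aestronglyMeasurable 1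
      (Eventually.of_forall fun ω => (norm_ex _).le)
  have h0 := integral_ofReal (𝕜 := ℂ) (μ := mu) (f := fun ω => ‖Z s b h N ω‖ ^ 2)
  refine h0.symm.trans ?_
  have h1 : ∀ ω, ((‖Z s b h N ω‖ ^ 2 : ℝ) : ℂ) = _ := fun ω => norm_Z_sq (s := s) (b := b) (h := h) N ω
  have h2 : (fun ω => (RCLike.ofReal (‖Z s b h N ω‖ ^ 2) : ℂ)) = fun ω =>
      ∑ i ∈ Finset.range N, ∑ j ∈ Finset.range N,
      ex ((h * (b : ℝ) ^ i - h * (b : ℝ) ^ j) * X (Set.range s) ω) := funext h1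
  rw [h2]
  rw [integral_finset_sum _ (fun i _ => integrable_finset_sum _ fun j _ => hint _)]
  apply Finset.sum_congr rfl
  intro i _
  rw [integral_finset_sum _ (fun j _ => hint _)]

open Classical in
/-- The number of bad exponents. -/
noncomputable def badCount (s : ℕ → ℕ) (b h R N : ℕ) : ℕ :=
  ((Finset.range N).filter (fun i => Bad s b h R i)).card

include hs hs0 hb hh in
theorem integral_Z_sq_le (R N : ℕ) : ∫ ω, ‖Z s b h N ω‖ ^ 2 ∂mu ≤
    N + 2 * (badCount s b h R N * N) + (N : ℝ) ^ 2 * (1 / 2) ^ R := by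
  classical
  have h1 : ∫ ω, ‖Z s b h N ω‖ ^ 2 ∂mu = ‖((∫ ω, ‖Z s b h N ω‖ ^ 2 ∂mu : ℝ) : ℂ)‖ := by
    rw [Complex.norm_real, Real.norm_of_nonneg]
    exact integral_nonneg fun ω => by positivity
  rw [h1, integral_Z_sq_eq]
  refine (norm_sum_le _ _).trans ?_
  have h2 : ∀ i ∈ Finset.range N, ‖∑ j ∈ Finset.range N,
      ∫ ω, ex ((h * (b : ℝ) ^ i - h * (b : ℝ) ^ j) * X (Set.range s) ω) ∂mu‖ ≤
      ∑ j ∈ Finset.range N, tau s b h R i j := fun i _ =>
    (norm_sum_le _ _).trans (Finset.sum_le_sum fun j _ => corr_le hs hs0 hb hh R i j)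
  refine (Finset.sum_le_sum h2).trans ?_
  have hcard : ∑ i ∈ Finset.range N, (if Bad s b h R i then (1 : ℝ) else 0) = badCount s b h R N := by
    unfold badCount
    rw [Finset.sum_ite, Finset.sum_const_zero, add_zero, Finset.sum_const, nsmul_eq_mul, mul_one]
  have h3 : ∀ i ∈ Finset.range N, ∑ j ∈ Finset.range N, tau s b h R i j =
      1 + N * (if Bad s b h R i then (1 : ℝ) else 0) + badCount s b h R N + N * (1 / 2) ^ R := by
    intro i hi
    unfold tau
    rw [Finset.sum_add_distrib, Finset.sum_add_distrib, Finset.sum_add_distrib]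
    rw [Finset.sum_ite_eq, if_pos hi, hcard]
    simp only [Finset.sum_const, Finset.card_range, nsmul_eq_mul]
  rw [Finset.sum_congr rfl h3]
  rw [Finset.sum_add_distrib, Finset.sum_add_distrib, Finset.sum_add_distrib, ← Finset.mul_sum, hcard]
  simp only [Finset.sum_const, Finset.card_range, nsmul_eq_mul, mul_one]
  apply le_of_eq
  ring

include hs hs0 hs4 hb hh in
theorem badCount_le {m : ℕ} (hm : 1 ≤ m) :
    badCount s b h m (m ^ 4) ≤ 12 * (h + b + 2) * m ^ 2 := by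
  classical
  set D := h + b + 2 with hD
  -- an injection
  have hk : ∀ i, Bad s b h m i → ∃ k, ell b h i ≤ s k + m ∧ s k ≤ ell b h i + 2 := fun i h => h
  choose! κ hκ using hk
  have hle : badCount s b h m (m ^ 4) ≤
      ((Finset.range (D * m + 1)) ×ˢ (Finset.range (m + 3))).card := by
    unfold badCount
    apply Finset.card_le_card_of_injOn (fun i => (κ i, ell b h i + 2 - s (κ i)))
    · intro i hi
      rw [Finset.mem_coe, Finset.mem_filter, Finset.mem_range] at hi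
      obtain ⟨hi1, hi2⟩ := hi
      obtain ⟨h1, h2⟩ := hκ i hi2
      simp only [Finset.mem_coe, Finset.mem_product, Finset.mem_range]
      refine ⟨?_, by omega⟩
      have h3 := ell_bound hb hh i
      have h4 : (κ i) ^ 4 ≤ (D * m) ^ 4 := by
        have hm4 : 1 ≤ m ^ 4 := Nat.one_le_pow _ _ hm
        calc (κ i) ^ 4 ≤ s (κ i) := hs4 _
          _ ≤ h + b * i + 2 := by omega
          _ ≤ h * m ^ 4 + b * m ^ 4 + 2 * m ^ 4 := by
              have e1 : h ≤ h * m ^ 4 := Nat.le_mul_of_pos_right _ hm4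
              have e2 : b * i ≤ b * m ^ 4 := Nat.mul_le_mul_left _ hi1.le
              omega
          _ = D * m ^ 4 := by rw [hD]; ring
          _ ≤ D ^ 4 * m ^ 4 := by
              apply Nat.mul_le_mul_right
              exact Nat.le_self_pow (by norm_num) _
          _ = (D * m) ^ 4 := by rw [mul_pow]
      have h5 : κ i ≤ D * m := (Nat.pow_le_pow_iff_left (by norm_num)).mp h4
      omega
    · intro i hi j hj hij
      rw [Finset.mem_coe, Finset.mem_filter, Finset.mem_range] at hi hj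
      simp only [Prod.mk.injEq] at hij
      obtain ⟨h1, h2⟩ := hκ i hi.2
      obtain ⟨h3, h4⟩ := hκ j hj.2
      rw [hij.1] at h1 h2
      have h5 : ell b h i = ell b h j := by
        have := hij.2
        rw [hij.1] at this
        omega
      exact (ell_strictMono hb hh).injective h5
  rw [Finset.card_product, Finset.card_range, Finset.card_range] at hle
  refine hle.trans ?_
  have h1 : D * m + 1 ≤ 2 * D * m := by nlinarith
  have h2 : m + 3 ≤ 4 * m := by omega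
  calc (D * m + 1) * (m + 3) ≤ (2 * D * m) * (4 * m) := Nat.mul_le_mul h1 h2
    _ = 8 * D * m ^ 2 := by ring
    _ ≤ 12 * D * m ^ 2 := by
      apply Nat.mul_le_mul_right
      apply Nat.mul_le_mul_right
      norm_num

include hs hs0 hs4 hb hh in
theorem moment_le {m : ℕ} (hm : 1 ≤ m) : ∫ ω, (‖Z s b h (m ^ 4) ω‖ / (m : ℝ) ^ 4) ^ 2 ∂mu ≤
    (24 * (h + b + 2) + 1) * (1 / (m : ℝ) ^ 2) + (1 / 2) ^ m := by
  have h1 := integral_Z_sq_le hs hs0 hb hh m (m ^ 4)
  have h2 : (badCount s b h m (m ^ 4) : ℝ) ≤ 12 * (h + b + 2) * (m : ℝ) ^ 2 := by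
    exact_mod_cast badCount_le hs hs0 hs4 hb hh hm
  have hm' : (1 : ℝ) ≤ m := by exact_mod_cast hm
  have h3 : ∀ ω, (‖Z s b h (m ^ 4) ω‖ / (m : ℝ) ^ 4) ^ 2 = ‖Z s b h (m ^ 4) ω‖ ^ 2 / (m : ℝ) ^ 8 := by
    intro ω
    rw [div_pow]
    congr 1
    ring
  simp only [h3]
  rw [integral_div, div_le_iff₀ (by positivity)]
  refine h1.trans ?_
  push_cast
  have h4 : (badCount s b h m (m ^ 4) : ℝ) * (m : ℝ) ^ 4 ≤ 12 * (h + b + 2) * (m : ℝ) ^ 2 * (m : ℝ) ^ 4 := by
    gcongr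
  have h5 : (m : ℝ) ^ 4 ≤ (m : ℝ) ^ 6 := pow_le_pow_right₀ hm' (by norm_num)
  have h6 : ((24 * ((h : ℝ) + b + 2) + 1) * (1 / (m : ℝ) ^ 2) + (1 / 2) ^ m) * (m : ℝ) ^ 8 =
      (24 * (h + b + 2) + 1) * (m : ℝ) ^ 6 + (m : ℝ) ^ 8 * (1 / 2) ^ m := by
    field_simp
  rw [h6]
  have h7 : ((m : ℝ) ^ 4) ^ 2 * (1 / 2) ^ m = (m : ℝ) ^ 8 * (1 / 2) ^ m := by ring
  rw [h7]
  have h8 : 12 * ((h : ℝ) + b + 2) * (m : ℝ) ^ 2 * (m : ℝ) ^ 4 = 12 * (h + b + 2) * (m : ℝ) ^ 6 := by ring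
  rw [h8] at h4
  nlinarith

end

/-- Convergence of a sequence of functions with summable integrals. -/
theorem ae_tendsto_of_summable {f : ℕ → (ℕ → Bool) → ℝ} (hf : ∀ m, Measurable (f m))
    (hf0 : ∀ m ω, 0 ≤ f m ω) (hint : ∀ m, Integrable (f m) mu) {a : ℕ → ℝ}
    (ha : ∀ m, ∫ ω, f m ω ∂mu ≤ a m) (hsum : Summable a) :
    ∀ᵐ ω ∂mu, Tendsto (fun m => f m ω) atTop (𝓝 0) := by
  have ha0 : ∀ m, 0 ≤ a m := fun m => (integral_nonneg (hf0 m)).trans (ha m)
  have h1 : ∫⁻ ω, ∑' m, ENNReal.ofReal (f m ω) ∂mu ≠ ∞ := by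
    rw [lintegral_tsum (fun m => (hf m).ennreal_ofReal.aemeasurable)]
    have h2 : ∀ m, ∫⁻ ω, ENNReal.ofReal (f m ω) ∂mu ≤ ENNReal.ofReal (a m) := by
      intro m
      rw [← ofReal_integral_eq_lintegral_ofReal (hint m) (Eventually.of_forall (hf0 m))]
      exact ENNReal.ofReal_le_ofReal (ha m)
    refine ne_top_of_le_ne_top ?_ (ENNReal.tsum_le_tsum h2)
    rw [← ENNReal.ofReal_tsum_of_nonneg ha0 hsum]
    exact ENNReal.ofReal_ne_top
  have h2 := ae_lt_top (Measurable.tsum fun m => (hf m).ennreal_ofReal) h1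
  filter_upwards [h2] with ω hω
  have h3 := ENNReal.tendsto_atTop_zero_of_tsum_ne_top hω.ne
  have h4 := (ENNReal.tendsto_toReal ENNReal.zero_ne_top).comp h3
  simp only [ENNReal.toReal_zero] at h4
  refine h4.congr fun m => ?_
  simp only [Function.comp]
  rw [ENNReal.toReal_ofReal (hf0 m ω)]

/-- From the fourth powers to all integers. -/
theorem interpolate {u : ℕ → ℂ} (hu : ∀ n, ‖u n‖ ≤ 1)
    (h : Tendsto (fun m : ℕ => ‖∑ i ∈ Finset.range (m ^ 4), u i‖ / (m : ℝ) ^ 4) atTop (𝓝 0)) :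
    Tendsto (fun N : ℕ => ‖∑ i ∈ Finset.range N, u i‖ / (N : ℝ)) atTop (𝓝 0) := by
  set r : ℕ → ℕ := fun N => Nat.sqrt (Nat.sqrt N) with hr
  have hr1 : ∀ N, (r N) ^ 4 ≤ N := by
    intro N
    have h1 := Nat.sqrt_le' N
    have h2 := Nat.sqrt_le' (Nat.sqrt N)
    calc (r N) ^ 4 = ((r N) ^ 2) ^ 2 := by ring
      _ ≤ (Nat.sqrt N) ^ 2 := Nat.pow_le_pow_left h2 2
      _ ≤ N := h1
  have hr2 : ∀ N, N < (r N + 1) ^ 4 := by
    intro N
    have h1 := Nat.lt_succ_sqrt' N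
    have h2 := Nat.lt_succ_sqrt' (Nat.sqrt N)
    calc N < (Nat.sqrt N + 1) ^ 2 := h1
      _ ≤ ((r N + 1) ^ 2) ^ 2 := Nat.pow_le_pow_left h2 2
      _ = (r N + 1) ^ 4 := by ring
  have hrt : Tendsto r atTop atTop := by
    rw [tendsto_atTop]
    intro C
    filter_upwards [eventually_ge_atTop ((C + 1) ^ 4)] with N hN
    by_contra hcon
    push Not at hcon
    have h1 := hr2 N
    have h2 : (r N + 1) ^ 4 ≤ (C + 1) ^ 4 := Nat.pow_le_pow_left (by omega) 4
    omega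
  have hlim : Tendsto (fun N : ℕ => ‖∑ i ∈ Finset.range ((r N) ^ 4), u i‖ / ((r N : ℕ) : ℝ) ^ 4 +
      15 / ((r N : ℕ) : ℝ)) atTop (𝓝 0) := by
    have h1 : Tendsto (fun m : ℕ => 15 / (m : ℝ)) atTop (𝓝 0) :=
      tendsto_const_div_atTop_nhds_zero_nat 15
    have := (h.comp hrt).add (h1.comp hrt)
    simpa using this
  apply squeeze_zero' (Eventually.of_forall fun N => by positivity) _ hlim
  filter_upwards [hrt.eventually_ge_atTop 1] with N hN
  have hN' : (1 : ℝ) ≤ r N := by exact_mod_cast hN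
  have h1 : ((r N : ℕ) : ℝ) ^ 4 ≤ N := by exact_mod_cast hr1 N
  have h2 : (N : ℝ) - ((r N : ℕ) : ℝ) ^ 4 ≤ 15 * ((r N : ℕ) : ℝ) ^ 3 := by
    have h3 : (N : ℝ) ≤ ((r N : ℕ) + 1 : ℝ) ^ 4 := by exact_mod_cast (hr2 N).le
    have h4 : ((r N : ℕ) : ℝ) ≤ ((r N : ℕ) : ℝ) ^ 3 := le_self_pow₀ hN' (by norm_num)
    have h5 : ((r N : ℕ) : ℝ) ^ 2 ≤ ((r N : ℕ) : ℝ) ^ 3 := pow_le_pow_right₀ hN' (by norm_num)
    have h6 : (1 : ℝ) ≤ ((r N : ℕ) : ℝ) ^ 3 := one_le_pow₀ hN'
    nlinarith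
  have h3 : ‖∑ i ∈ Finset.range N, u i‖ ≤ ‖∑ i ∈ Finset.range ((r N) ^ 4), u i‖ +
      15 * ((r N : ℕ) : ℝ) ^ 3 := by
    have h4 : ∑ i ∈ Finset.range N, u i = ∑ i ∈ Finset.range ((r N) ^ 4), u i +
        ∑ i ∈ Finset.Ico ((r N) ^ 4) N, u i := by
      rw [Finset.range_eq_Ico, Finset.range_eq_Ico, Finset.sum_Ico_consecutive _ (Nat.zero_le _) (hr1 N)]
    rw [h4]
    refine (norm_add_le _ _).trans (add_le_add (le_refl _) ?_)
    refine (norm_sum_le _ _).trans ?_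
    refine (Finset.sum_le_sum fun i _ => hu i).trans ?_
    rw [Finset.sum_const, Nat.card_Ico, nsmul_eq_mul, mul_one, Nat.cast_sub (hr1 N)]
    push_cast
    exact h2
  have hNpos : (0 : ℝ) < N := lt_of_lt_of_le (by positivity) h1
  calc ‖∑ i ∈ Finset.range N, u i‖ / (N : ℝ) ≤
      (‖∑ i ∈ Finset.range ((r N) ^ 4), u i‖ + 15 * ((r N : ℕ) : ℝ) ^ 3) / ((r N : ℕ) : ℝ) ^ 4 := by
        gcongr
    _ = _ := by
        field_simp

/-- The Weyl sums of the random number are small. -/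
theorem weyl_ae {s : ℕ → ℕ} (hs : StrictMono s) (hs0 : s 0 = 0) (hs4 : ∀ k, k ^ 4 ≤ s k) {b h : ℕ}
    (hb : 2 ≤ b) (hh : 1 ≤ h) : ∀ᵐ ω ∂mu, Tendsto (fun N : ℕ =>
      ‖∑ i ∈ Finset.range N, ex (h * (b : ℝ) ^ i * X (Set.range s) ω)‖ / (N : ℝ)) atTop (𝓝 0) := by
  have hZb : ∀ m ω, ‖Z s b h (m ^ 4) ω‖ ≤ (m : ℝ) ^ 4 := by
    intro m ω
    unfold Z
    refine (norm_sum_le _ _).trans ?_
    simp only [norm_ex, Finset.sum_const, Finset.card_range, nsmul_eq_mul, mul_one]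
    push_cast
    exact le_refl _
  have h1 := ae_tendsto_of_summable
    (f := fun m ω => (‖Z s b h ((m + 1) ^ 4) ω‖ / ((m + 1 : ℕ) : ℝ) ^ 4) ^ 2)
    (a := fun m => (24 * (h + b + 2) + 1) * (1 / ((m + 1 : ℕ) : ℝ) ^ 2) + (1 / 2) ^ (m + 1))
    (fun m => (((measurable_Z _).norm).div_const _).pow_const 2)
    (fun m ω => by positivity)
    (fun m => by
      refine Integrable.of_bound
        ((((measurable_Z _).norm).div_const _).pow_const 2).aestronglyMeasurable 1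
        (Eventually.of_forall fun ω => ?_)
      rw [Real.norm_of_nonneg (by positivity)]
      have h2 := hZb (m + 1) ω
      have h3 : ‖Z s b h ((m + 1) ^ 4) ω‖ / ((m + 1 : ℕ) : ℝ) ^ 4 ≤ 1 := by
        rw [div_le_one (by positivity)]
        exact h2
      exact pow_le_one₀ (by positivity) h3)
    (fun m => moment_le hs hs0 hs4 hb hh (by omega))
    (by
      apply Summable.add
      · apply Summable.mul_left
        exact (summable_nat_add_iff 1).mpr (Real.summable_one_div_nat_pow.mpr (by norm_num : 1 < 2))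
      · exact (summable_nat_add_iff 1).mpr (summable_geometric_two))
  filter_upwards [h1] with ω hω
  apply interpolate (fun n => (norm_ex _).le)
  rw [← tendsto_add_atTop_iff_nat 1]
  have h2 := (Real.continuous_sqrt.tendsto 0).comp hω
  rw [Real.sqrt_zero] at h2
  refine h2.congr fun m => ?_
  simp only [Function.comp]
  rw [Real.sqrt_sq (by positivity)]
  rfl

end Pool.Agent.Y249.SU
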