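import Pool.Agent.Y249.SU.Cantor

/-!
# Random binary expansions with forced digits
-/

set_option autoImplicit false

open MeasureTheory Filter Topology
open scoped ENNReal

namespace Pool.Agent.Y249.SU

/-- The fair coin. -/
noncomputable def coin : Measure Bool := (2⁻¹ : ℝ≥0∞) • Measure.count

theorem coin_singleton (b : Bool) : coin {b} = 2⁻¹ := by
  unfold coin
  rw [Measure.smul_apply, Measure.count_singleton, smul_eq_mul, mul_one]

instance coin_prob : IsProbabilityMeasure coin := by
  constructor
  unfold coin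
  rw [Measure.smul_apply, Measure.count_univ, smul_eq_mul]
  simp only [ENat.card_eq_coe_fintype_card, Fintype.card_bool]
  exact ENNReal.inv_mul_cancel (by norm_num) (by norm_num)

theorem coin_map_not : coin.map (fun b => !b) = coin := by
  apply Measure.ext_of_singleton
  intro b
  rw [Measure.map_apply (measurable_of_finite _) (measurableSet_singleton _)]
  have : (fun b => !b) ⁻¹' {b} = {!b} := by
    ext x
    simp only [Set.mem_preimage, Set.mem_singleton_iff]
    cases x <;> cases b <;> simp
  rw [this, coin_singleton, coin_singleton]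

/-- The probability space of the coin tosses. -/
noncomputable def mu : Measure (ℕ → Bool) := Measure.infinitePi (fun _ => coin)

instance mu_prob : IsProbabilityMeasure mu := by
  unfold mu
  infer_instance

/-- Change the `j`-th toss. -/
def flip (j : ℕ) (ω : ℕ → Bool) : ℕ → Bool := fun i => if i = j then !(ω i) else ω i

theorem flip_same (j : ℕ) (ω : ℕ → Bool) : flip j ω j = !(ω j) := by simp [flip]

theorem flip_other {j i : ℕ} (h : i ≠ j) (ω : ℕ → Bool) : flip j ω i = ω i := by simp [flip, h]

theorem measurePreserving_flip (j : ℕ) : MeasurePreserving (flip j) mu mu := by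
  have hm : ∀ i : ℕ, Measurable (fun b : Bool => if i = j then !b else b) := fun i =>
    measurable_of_finite _
  refine ⟨?_, ?_⟩
  · apply measurable_pi_lambda
    intro i
    exact (hm i).comp (measurable_pi_apply i)
  · have h1 := Measure.infinitePi_map_pi (μ := fun _ : ℕ => coin)
      (f := fun (i : ℕ) (b : Bool) => if i = j then !b else b) hm
    unfold mu
    have h2 : flip j = fun (x : ℕ → Bool) (i : ℕ) => (fun (b : Bool) => if i = j then !b else b) (x i) := by
      ext x i
      rfl
    rw [h2, h1]
    congr 1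
    ext1 i
    by_cases hi : i = j
    · simp only [hi, if_true]
      exact coin_map_not
    · simp only [hi, if_false]
      exact Measure.map_id

theorem integral_flip (j : ℕ) {f : (ℕ → Bool) → ℂ} (hf : Measurable f) :
    ∫ ω, f (flip j ω) ∂mu = ∫ ω, f ω ∂mu := by
  have h := measurePreserving_flip j
  rw [← integral_map h.measurable.aemeasurable (by rw [h.map_eq]; exact hf.aestronglyMeasurable)]
  rw [h.map_eq]

/-- The independence of finitely many tosses of the others. -/
theorem integral_block (F : Finset ℕ) (a : ℕ → Bool → ℂ) (ha : ∀ j b, ‖a j b‖ ≤ 1)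
    {g : (ℕ → Bool) → ℂ} (hg : Measurable g) (hg1 : ∀ ω, ‖g ω‖ ≤ 1)
    (hinv : ∀ j ∈ F, ∀ ω, g (flip j ω) = g ω) :
    ∫ ω, (∏ j ∈ F, a j (ω j)) * g ω ∂mu = (∏ j ∈ F, (a j true + a j false) / 2) * ∫ ω, g ω ∂mu := by
  induction F using Finset.induction_on with
  | empty => simp
  | insert j F hj ih =>
    have hmeas : ∀ i, Measurable (fun ω : ℕ → Bool => a i (ω i)) := fun i =>
      (measurable_of_finite (a i)).comp (measurable_pi_apply i)
    have hprod : Measurable (fun ω : ℕ → Bool => ∏ i ∈ F, a i (ω i)) :=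
      Finset.measurable_prod _ fun i _ => hmeas i
    have hbound : ∀ ω : ℕ → Bool, ‖∏ i ∈ F, a i (ω i)‖ ≤ 1 := by
      intro ω
      rw [norm_prod]
      exact Finset.prod_le_one (fun _ _ => norm_nonneg _) (fun i _ => ha i _)
    set H : (ℕ → Bool) → ℂ := fun ω => (∏ i ∈ F, a i (ω i)) * g ω with hH
    have hHm : Measurable H := hprod.mul hg
    have hHb : ∀ ω, ‖H ω‖ ≤ 1 := by
      intro ω
      rw [hH]
      simp only [norm_mul]
      exact mul_le_one₀ (hbound ω) (norm_nonneg _) (hg1 ω)
    have hHinv : ∀ ω, H (flip j ω) = H ω := by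
      intro ω
      simp only [hH]
      rw [hinv j (Finset.mem_insert_self _ _) ω]
      congr 1
      apply Finset.prod_congr rfl
      intro i hi
      rw [flip_other (fun h => hj (by rwa [h] at hi))]
    have hint : ∀ (u : (ℕ → Bool) → ℂ), Measurable u → (∀ ω, ‖u ω‖ ≤ 1) →
        Integrable (fun ω => u ω * H ω) mu := by
      intro u hu hub
      refine Integrable.of_bound (hu.mul hHm).aestronglyMeasurable 1 (Eventually.of_forall fun ω => ?_)
      rw [norm_mul]
      exact mul_le_one₀ (hub ω) (norm_nonneg _) (hHb ω)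
    have h1 : ∫ ω, a j (ω j) * H ω ∂mu = ∫ ω, a j (!(ω j)) * H ω ∂mu := by
      have h0 := integral_flip j (f := fun ω => a j (ω j) * H ω) ((hmeas j).mul hHm)
      rw [← h0]
      congr 1
      ext ω
      simp only [flip_same, hHinv]
    have h2 : ∫ ω, a j (ω j) * H ω ∂mu + ∫ ω, a j (!(ω j)) * H ω ∂mu =
        (a j true + a j false) * ∫ ω, H ω ∂mu := by
      rw [← integral_add (hint (fun ω => a j (ω j)) (hmeas j) (fun ω => ha j _))
        (hint (fun ω => a j (!(ω j)))
          ((measurable_of_finite (fun b => a j (!b))).comp (measurable_pi_apply j))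
          (fun ω => ha j _)), ← integral_const_mul]
      congr 1
      ext ω
      cases ω j <;> simp <;> ring
    have h3 : ∫ ω, (∏ i ∈ insert j F, a i (ω i)) * g ω ∂mu = ∫ ω, a j (ω j) * H ω ∂mu := by
      congr 1
      ext ω
      rw [Finset.prod_insert hj]
      simp only [hH]
      ring
    rw [h3, Finset.prod_insert hj]
    rw [← h1] at h2
    rw [ih (fun i hi => hinv i (Finset.mem_insert_of_mem hi))] at h2
    linear_combination (1 / 2) * h2

section

variable (S : Set ℕ)

open Classical in
/-- The `j`-th digit: it is `0` on `S`. -/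
noncomputable def bit (ω : ℕ → Bool) (j : ℕ) : ℕ := if j ∈ S then 0 else if ω j then 1 else 0

theorem bit_le (ω : ℕ → Bool) (j : ℕ) : bit S ω j ≤ 1 := by
  unfold bit
  split_ifs <;> omega

theorem bit_mem {ω : ℕ → Bool} {j : ℕ} (h : j ∈ S) : bit S ω j = 0 := by
  unfold bit
  rw [if_pos h]

theorem bit_flip {i j : ℕ} (h : i ≠ j) (ω : ℕ → Bool) : bit S (flip j ω) i = bit S ω i := by
  unfold bit
  rw [flip_other h]

/-- The terms of the random number. -/
noncomputable def term (ω : ℕ → Bool) (j : ℕ) : ℝ := (bit S ω j : ℝ) * (1 / 2) ^ (j + 1)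

theorem term_nonneg (ω : ℕ → Bool) (j : ℕ) : 0 ≤ term S ω j := by
  unfold term
  positivity

theorem term_le (ω : ℕ → Bool) (j : ℕ) : term S ω j ≤ (1 / 2) ^ (j + 1) := by
  unfold term
  have : (bit S ω j : ℝ) ≤ 1 := by exact_mod_cast bit_le S ω j
  have h2 : (0 : ℝ) < (1 / 2) ^ (j + 1) := by positivity
  nlinarith

theorem hasSum_half : HasSum (fun j : ℕ => (1 / 2 : ℝ) ^ (j + 1)) 1 := by
  have h := hasSum_geometric_two.mul_left (1 / 2 : ℝ)
  have h1 : (fun j : ℕ => (1 / 2 : ℝ) ^ (j + 1)) = fun j : ℕ => 1 / 2 * (1 / 2 : ℝ) ^ j := by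
    ext j
    ring
  have h2 : (1 / 2 * 2 : ℝ) = 1 := by norm_num
  rw [h2] at h
  rw [h1]
  exact h

theorem summable_term (ω : ℕ → Bool) : Summable (term S ω) :=
  Summable.of_nonneg_of_le (term_nonneg S ω) (term_le S ω) hasSum_half.summable

/-- The random number. -/
noncomputable def X (ω : ℕ → Bool) : ℝ := ∑' j, term S ω j

theorem measurable_bit (j : ℕ) : Measurable (fun ω : ℕ → Bool => bit S ω j) := by
  unfold bit
  split_ifs
  · exact measurable_const
  · exact (measurable_of_finite (fun b : Bool => if b then 1 else 0)).comp (measurable_pi_apply j)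

theorem measurable_term (j : ℕ) : Measurable (fun ω : ℕ → Bool => term S ω j) := by
  unfold term
  exact ((measurable_of_countable (fun n : ℕ => (n : ℝ))).comp (measurable_bit S j)).mul_const _

theorem continuous_bit (j : ℕ) : Continuous (fun ω : ℕ → Bool => bit S ω j) := by
  unfold bit
  split_ifs
  · exact continuous_const
  · exact (continuous_of_discreteTopology (f := fun b : Bool => if b then 1 else 0)).comp
      (continuous_apply j)

theorem continuous_term (j : ℕ) : Continuous (fun ω : ℕ → Bool => term S ω j) := by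
  unfold term
  exact ((continuous_of_discreteTopology (f := fun n : ℕ => (n : ℝ))).comp
    (continuous_bit S j)).mul continuous_const

theorem continuous_X : Continuous (X S) := by
  apply continuous_tsum (continuous_term S) hasSum_half.summable
  intro j ω
  rw [Real.norm_of_nonneg (term_nonneg S ω j)]
  exact term_le S ω j

theorem measurable_X : Measurable (X S) := (continuous_X S).measurable

theorem X_nonneg (ω : ℕ → Bool) : 0 ≤ X S ω := tsum_nonneg (term_nonneg S ω)

theorem X_le (ω : ℕ → Bool) : X S ω ≤ 1 := by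
  rw [← hasSum_half.tsum_eq]
  exact (summable_term S ω).tsum_le_tsum (term_le S ω) hasSum_half.summable

/-- The integer formed by the first digits. -/
noncomputable def pre (ω : ℕ → Bool) : ℕ → ℕ
  | 0 => 0
  | m + 1 => 2 * pre ω m + bit S ω m

theorem pre_inj {ω ω' : ℕ → Bool} : ∀ {m : ℕ}, pre S ω m = pre S ω' m →
    ∀ j < m, bit S ω j = bit S ω' j := by
  intro m
  induction m with
  | zero => intro _ j hj; omega
  | succ m ih =>
    intro h j hj
    simp only [pre] at h
    have h1 := bit_le S ω m
    have h2 := bit_le S ω' m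
    rcases Nat.lt_succ_iff_lt_or_eq.mp hj with h3 | h3
    · exact ih (by omega) j h3
    · subst h3
      omega

theorem pre_eq (ω : ℕ → Bool) (m : ℕ) :
    (pre S ω m : ℝ) = 2 ^ m * ∑ j ∈ Finset.range m, term S ω j := by
  induction m with
  | zero => simp [pre]
  | succ m ih =>
    rw [Finset.sum_range_succ, pre]
    push_cast
    rw [ih]
    unfold term
    have : (2 : ℝ) ^ (m + 1) * ((bit S ω m : ℝ) * (1 / 2) ^ (m + 1)) = bit S ω m := by
      rw [mul_comm, mul_assoc, ← mul_pow]
      norm_num
    rw [mul_add, this]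
    ring

/-- The tail. -/
theorem X_split (ω : ℕ → Bool) (m : ℕ) :
    ∃ y, 0 ≤ y ∧ y ≤ 1 ∧ (m ∈ S → y ≤ 1 / 2) ∧ 2 ^ m * X S ω = pre S ω m + y := by
  have h1 := (summable_term S ω).sum_add_tsum_nat_add m
  have h2 : ∀ j, 0 ≤ term S ω (j + m) := fun j => term_nonneg S ω _
  have hs : Summable (fun j => term S ω (j + m)) := (summable_nat_add_iff m).mpr (summable_term S ω)
  have hle : ∀ j, term S ω (j + m) ≤ (1 / 2) ^ m * (1 / 2) ^ (j + 1) := by
    intro j
    refine (term_le S ω _).trans (le_of_eq ?_)
    rw [← pow_add]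
    congr 1
    ring
  refine ⟨2 ^ m * ∑' j, term S ω (j + m), ?_, ?_, ?_, ?_⟩
  · exact mul_nonneg (by positivity) (tsum_nonneg h2)
  · have h3 : ∑' j, term S ω (j + m) ≤ (1 / 2) ^ m * 1 :=
      hasSum_le hle hs.hasSum (hasSum_half.mul_left _)
    calc (2 : ℝ) ^ m * ∑' j, term S ω (j + m) ≤ 2 ^ m * ((1 / 2) ^ m * 1) := by gcongr
      _ = 1 := by
        rw [mul_one, ← mul_pow]
        norm_num
  · intro hm
    have h4 := hs.tsum_eq_zero_add
    have h5 : term S ω (0 + m) = 0 := by
      rw [zero_add]
      unfold term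
      rw [bit_mem S hm]
      simp
    rw [h4, h5, zero_add]
    have hs' : Summable (fun j => term S ω (j + 1 + m)) := (summable_nat_add_iff 1).mpr hs
    have h3 : ∑' j, term S ω (j + 1 + m) ≤ (1 / 2) ^ (m + 1) * 1 := by
      refine hasSum_le (fun j => ?_) hs'.hasSum (hasSum_half.mul_left _)
      refine (hle (j + 1)).trans (le_of_eq ?_)
      rw [← pow_add, ← pow_add]
      congr 1
      ring
    calc (2 : ℝ) ^ m * ∑' j, term S ω (j + 1 + m) ≤ 2 ^ m * ((1 / 2) ^ (m + 1) * 1) := by gcongr
      _ = 1 / 2 := by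
        rw [mul_one, pow_succ, ← mul_assoc, ← mul_pow]
        norm_num
  · rw [X, ← h1, mul_add, pre_eq]

end

end Pool.Agent.Y249.SU
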