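import Pool.Agent.Y249.SU.CL

/-!
# Rajchman's formal multiplication and sets of uniqueness
-/

set_option autoImplicit false

open MeasureTheory Filter Topology

namespace Pool.Agent.Y249.SU

theorem telescope (f : ℤ → ℂ) (N : ℕ) :
    ∑ m ∈ Finset.Icc (-(N : ℤ)) (N : ℤ), (f (m - 1) - f m) = f (-(N : ℤ) - 1) - f N := by
  induction N with
  | zero => simp
  | succ N ih =>
    rw [Icc_succ, Finset.sum_insert, Finset.sum_insert, ih]
    · have h1 : ((N + 1 : ℕ) : ℤ) - 1 = N := by push_cast; ring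
      have h2 : -((N + 1 : ℕ) : ℤ) = -(N : ℤ) - 1 := by push_cast; ring
      rw [h1, h2]
      ring
    · simp only [Finset.mem_Icc]
      push_cast
      omega
    · simp only [Finset.mem_Icc, Finset.mem_insert]
      push_cast
      omega

theorem shift_bound (f : ℤ → ℂ) (N k : ℕ) :
    ‖∑ m ∈ Finset.Icc (-(N : ℤ)) (N : ℤ), f (m - k) - ∑ m ∈ Finset.Icc (-(N : ℤ)) (N : ℤ), f m‖ ≤
      ∑ i ∈ Finset.range k, (‖f (-(N : ℤ) - i - 1)‖ + ‖f (N - i)‖) := by
  induction k with
  | zero => simp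
  | succ k ih =>
    rw [Finset.sum_range_succ]
    have h1 := telescope (fun m => f (m - k)) N
    rw [Finset.sum_sub_distrib] at h1
    have h2 : ∑ m ∈ Finset.Icc (-(N : ℤ)) (N : ℤ), f (m - ((k + 1 : ℕ) : ℤ)) =
        ∑ m ∈ Finset.Icc (-(N : ℤ)) (N : ℤ), f (m - 1 - k) := by
      apply Finset.sum_congr rfl
      intro m _
      congr 1
      push_cast
      ring
    have h3 : ∑ m ∈ Finset.Icc (-(N : ℤ)) (N : ℤ), f (m - ((k + 1 : ℕ) : ℤ)) -
        ∑ m ∈ Finset.Icc (-(N : ℤ)) (N : ℤ), f m =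
        (∑ m ∈ Finset.Icc (-(N : ℤ)) (N : ℤ), f (m - k) -
          ∑ m ∈ Finset.Icc (-(N : ℤ)) (N : ℤ), f m) + (f (-(N : ℤ) - 1 - k) - f (N - k)) := by
      rw [h2, ← h1]
      ring
    rw [h3]
    refine (norm_add_le _ _).trans (add_le_add ih ?_)
    refine (norm_sub_le _ _).trans ?_
    have h4 : -(N : ℤ) - 1 - k = -(N : ℤ) - k - 1 := by ring
    rw [h4]

theorem sum_Icc_neg (f : ℤ → ℂ) (N : ℕ) :
    ∑ m ∈ Finset.Icc (-(N : ℤ)) (N : ℤ), f (-m) = ∑ m ∈ Finset.Icc (-(N : ℤ)) (N : ℤ), f m := by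
  refine Finset.sum_nbij' (fun m => -m) (fun m => -m) (fun m hm => ?_) (fun m hm => ?_)
    (fun m _ => neg_neg m) (fun m _ => neg_neg m) (fun m _ => rfl)
  · rw [Finset.mem_Icc] at hm ⊢
    omega
  · rw [Finset.mem_Icc] at hm ⊢
    omega

theorem shift_bound' (f : ℤ → ℂ) (N k : ℕ) :
    ‖∑ m ∈ Finset.Icc (-(N : ℤ)) (N : ℤ), f (m + k) - ∑ m ∈ Finset.Icc (-(N : ℤ)) (N : ℤ), f m‖ ≤
      ∑ i ∈ Finset.range k, (‖f (N + i + 1)‖ + ‖f (-(N : ℤ) + i)‖) := by
  have h := shift_bound (fun m => f (-m)) N k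
  have h1 : ∑ m ∈ Finset.Icc (-(N : ℤ)) (N : ℤ), f (-(m - k)) =
      ∑ m ∈ Finset.Icc (-(N : ℤ)) (N : ℤ), f (m + k) := by
    rw [← sum_Icc_neg (fun m => f (m + k))]
    apply Finset.sum_congr rfl
    intro m _
    congr 1
    ring
  rw [h1, sum_Icc_neg f] at h
  refine h.trans (le_of_eq ?_)
  apply Finset.sum_congr rfl
  intro i _
  congr 3 <;> ring

/-- The shifted partial sums. -/
noncomputable def T (c : ℤ → ℂ) (k : ℤ) (N : ℕ) (x : ℝ) : ℂ :=
  ∑ m ∈ Finset.Icc (-(N : ℤ)) (N : ℤ), c (m - k) * E (m - k) x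

theorem norm_T_sub_le {c : ℤ → ℂ} {B : ℝ} (hB : ∀ n, ‖c n‖ ≤ B) (k : ℤ) (N : ℕ) (x : ℝ) :
    ‖T c k N x - S c N x‖ ≤ 2 * |(k : ℝ)| * B := by
  have hb : ∀ m : ℤ, ‖c m * E m x‖ ≤ B := by
    intro m
    rw [norm_mul, norm_E, mul_one]
    exact hB m
  obtain ⟨j, hj | hj⟩ := k.eq_nat_or_neg
  · subst hj
    refine (shift_bound (fun m => c m * E m x) N j).trans ?_
    refine (Finset.sum_le_sum (g := fun _ => B + B) fun i _ => add_le_add (hb _) (hb _)).trans ?_
    rw [Finset.sum_const, Finset.card_range, nsmul_eq_mul]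
    have : |((j : ℤ) : ℝ)| = j := by simp
    rw [this]
    apply le_of_eq
    ring
  · subst hj
    have h0 := shift_bound' (fun m => c m * E m x) N j
    have h1 : T c (-(j : ℤ)) N x = ∑ m ∈ Finset.Icc (-(N : ℤ)) (N : ℤ), c (m + j) * E (m + j) x := by
      unfold T
      apply Finset.sum_congr rfl
      intro m _
      rw [sub_neg_eq_add]
    rw [h1]
    refine h0.trans ?_
    refine (Finset.sum_le_sum (g := fun _ => B + B) fun i _ => add_le_add (hb _) (hb _)).trans ?_
    rw [Finset.sum_const, Finset.card_range, nsmul_eq_mul]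
    have : |((-(j : ℤ) : ℤ) : ℝ)| = j := by simp
    rw [this]
    apply le_of_eq
    ring

theorem tendsto_T_sub {c : ℤ → ℂ} (h1 : Tendsto (fun n : ℕ => c n) atTop (𝓝 0))
    (h2 : Tendsto (fun n : ℕ => c (-n)) atTop (𝓝 0)) (k : ℤ) (x : ℝ) :
    Tendsto (fun N : ℕ => T c k N x - S c N x) atTop (𝓝 0) := by
  have hnorm : ∀ m : ℤ, ‖c m * E m x‖ = ‖c m‖ := by
    intro m
    rw [norm_mul, norm_E, mul_one]
  have hp : ∀ f : ℕ → ℤ, Tendsto (fun N : ℕ => (f N).toNat) atTop atTop →
      (∀ᶠ N in atTop, 0 ≤ f N) → Tendsto (fun N : ℕ => ‖c (f N)‖) atTop (𝓝 0) := by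
    intro f hf hf0
    have := (h1.comp hf).norm
    rw [norm_zero] at this
    refine this.congr' ?_
    filter_upwards [hf0] with N hN
    simp only [Function.comp]
    rw [Int.toNat_of_nonneg hN]
  have hm : ∀ f : ℕ → ℤ, Tendsto (fun N : ℕ => (-(f N)).toNat) atTop atTop →
      (∀ᶠ N in atTop, 0 ≤ -(f N)) → Tendsto (fun N : ℕ => ‖c (f N)‖) atTop (𝓝 0) := by
    intro f hf hf0
    have := (h2.comp hf).norm
    rw [norm_zero] at this
    refine this.congr' ?_
    filter_upwards [hf0] with N hN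
    simp only [Function.comp]
    rw [Int.toNat_of_nonneg hN, neg_neg]
  have hev : ∀ g : ℕ → ℤ, (∀ C : ℕ, ∀ᶠ N in atTop, (C : ℤ) ≤ g N) →
      Tendsto (fun N => (g N).toNat) atTop atTop := by
    intro g hg
    rw [tendsto_atTop]
    intro C
    filter_upwards [hg C] with N hN
    omega
  obtain ⟨j, hj | hj⟩ := k.eq_nat_or_neg
  · subst hj
    rw [tendsto_zero_iff_norm_tendsto_zero]
    apply squeeze_zero (fun _ => norm_nonneg _)
      (fun N => shift_bound (fun m => c m * E m x) N j)
    have : (0 : ℝ) = ∑ i ∈ Finset.range j, ((0 : ℝ) + 0) := by simp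
    rw [this]
    apply tendsto_finsetSum
    intro i _
    simp only [hnorm]
    apply Tendsto.add
    · apply hm
      · apply hev
        intro C
        filter_upwards [eventually_ge_atTop C] with N hN
        omega
      · filter_upwards with N
        omega
    · apply hp
      · apply hev
        intro C
        filter_upwards [eventually_ge_atTop (C + i)] with N hN
        omega
      · filter_upwards [eventually_ge_atTop i] with N hN
        omega
  · subst hj
    rw [tendsto_zero_iff_norm_tendsto_zero]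
    have h1 : ∀ N, T c (-(j : ℤ)) N x = ∑ m ∈ Finset.Icc (-(N : ℤ)) (N : ℤ), c (m + j) * E (m + j) x := by
      intro N
      unfold T
      apply Finset.sum_congr rfl
      intro m _
      rw [sub_neg_eq_add]
    simp only [h1]
    apply squeeze_zero (fun _ => norm_nonneg _)
      (fun N => shift_bound' (fun m => c m * E m x) N j)
    have : (0 : ℝ) = ∑ i ∈ Finset.range j, ((0 : ℝ) + 0) := by simp
    rw [this]
    apply tendsto_finsetSum
    intro i _
    simp only [hnorm]
    apply Tendsto.add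
    · apply hp
      · apply hev
        intro C
        filter_upwards [eventually_ge_atTop C] with N hN
        omega
      · filter_upwards with N
        omega
    · apply hm
      · apply hev
        intro C
        filter_upwards [eventually_ge_atTop (C + i)] with N hN
        omega
      · filter_upwards [eventually_ge_atTop i] with N hN
        omega

/-- The function with the Fourier coefficients `γ`. -/
noncomputable def lam (γ : ℤ → ℂ) (x : ℝ) : ℂ := ∑' j : ℤ, γ j * E j x

/-- The formal product of the series with `lam γ (M x)`. -/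
noncomputable def P (γ c : ℤ → ℂ) (M : ℤ) (m : ℤ) : ℂ := ∑' j : ℤ, γ j * c (m - j * M)

section

variable {γ c : ℤ → ℂ} {B : ℝ} (hγ : Summable fun j : ℤ => (1 + |(j : ℝ)|) * ‖γ j‖)
  (hB : ∀ n, ‖c n‖ ≤ B)

include hγ in
theorem summable_norm_gamma : Summable fun j : ℤ => ‖γ j‖ := by
  refine Summable.of_nonneg_of_le (fun _ => norm_nonneg _) (fun j => ?_) hγ
  have := abs_nonneg (j : ℝ)
  nlinarith [norm_nonneg (γ j)]

include hγ hB in
theorem hasSum_P (M m : ℤ) : HasSum (fun j : ℤ => γ j * c (m - j * M)) (P γ c M m) := by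
  apply Summable.hasSum
  refine Summable.of_norm_bounded ((summable_norm_gamma hγ).mul_right B) fun j => ?_
  rw [norm_mul]
  exact mul_le_mul_of_nonneg_left (hB _) (norm_nonneg _)

include hγ in
theorem hasSum_lam (x : ℝ) : HasSum (fun j : ℤ => γ j * E j x) (lam γ x) := by
  apply Summable.hasSum
  refine Summable.of_norm_bounded (summable_norm_gamma hγ) fun j => ?_
  rw [norm_mul, norm_E, mul_one]

include hγ hB in
theorem norm_P_le (M m : ℤ) : ‖P γ c M m‖ ≤ (∑' j : ℤ, ‖γ j‖) * B := by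
  rw [← tsum_mul_right]
  refine tsum_of_norm_bounded ((summable_norm_gamma hγ).mul_right B).hasSum fun j => ?_
  rw [norm_mul]
  exact mul_le_mul_of_nonneg_left (hB _) (norm_nonneg _)

theorem E_mul (j M : ℤ) (x : ℝ) : E (j * M) x = E j (M * x) := by
  rw [E, E]
  congr 1
  push_cast
  ring

include hγ hB in
theorem S_P (M : ℤ) (N : ℕ) (x : ℝ) :
    HasSum (fun j : ℤ => γ j * E j (M * x) * (T c (j * M) N x - S c N x))
      (S (P γ c M) N x - lam γ (M * x) * S c N x) := by
  have h1 : HasSum (fun j : ℤ => ∑ m ∈ Finset.Icc (-(N : ℤ)) (N : ℤ),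
      (γ j * c (m - j * M)) * E m x) (S (P γ c M) N x) := by
    apply hasSum_sum
    intro m _
    exact (hasSum_P hγ hB M m).mul_right _
  have h2 : HasSum (fun j : ℤ => γ j * E j (M * x) * S c N x) (lam γ (M * x) * S c N x) :=
    (hasSum_lam hγ (M * x)).mul_right _
  have h3 := h1.sub h2
  have hfun : (fun j : ℤ => γ j * E j (M * x) * (T c (j * M) N x - S c N x)) =
      fun j : ℤ => (∑ m ∈ Finset.Icc (-(N : ℤ)) (N : ℤ), (γ j * c (m - j * M)) * E m x) -
        γ j * E j (M * x) * S c N x := by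
    ext j
    rw [mul_sub]
    congr 1
    unfold T
    rw [Finset.mul_sum]
    apply Finset.sum_congr rfl
    intro m _
    have : E m x = E (j * M) x * E (m - j * M) x := by
      rw [← E_add_left]
      congr 1
      ring
    rw [this, E_mul]
    ring
  rw [hfun]
  exact h3

include hγ hB in
theorem tendsto_P (h1 : Tendsto (fun n : ℕ => c n) atTop (𝓝 0))
    (h2 : Tendsto (fun n : ℕ => c (-n)) atTop (𝓝 0)) (M : ℤ) (x : ℝ) :
    Tendsto (fun N : ℕ => S (P γ c M) N x - lam γ (M * x) * S c N x) atTop (𝓝 0) := by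
  have hB0 : 0 ≤ B := (norm_nonneg _).trans (hB 0)
  have h3 : ∀ N : ℕ, S (P γ c M) N x - lam γ (M * x) * S c N x =
      ∑' j : ℤ, γ j * E j (M * x) * (T c (j * M) N x - S c N x) :=
    fun N => (S_P hγ hB M N x).tsum_eq.symm
  simp only [h3]
  have h4 : (0 : ℂ) = ∑' j : ℤ, (0 : ℂ) := by simp
  rw [h4]
  apply tendsto_tsum_of_dominated_convergence
    (bound := fun j : ℤ => ((1 + |(j : ℝ)|) * ‖γ j‖) * (2 * |(M : ℝ)| * B)) (hγ.mul_right _)
  · intro j
    have := (tendsto_T_sub h1 h2 (j * M) x).const_mul (γ j * E j (M * x))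
    rwa [mul_zero] at this
  · refine Eventually.of_forall fun N j => ?_
    rw [norm_mul, norm_mul, norm_E, mul_one]
    have h5 := norm_T_sub_le hB (j * M) N x
    have h6 : |((j * M : ℤ) : ℝ)| = |(j : ℝ)| * |(M : ℝ)| := by
      push_cast
      exact abs_mul _ _
    rw [h6] at h5
    calc ‖γ j‖ * ‖T c (j * M) N x - S c N x‖ ≤ ‖γ j‖ * (2 * (|(j : ℝ)| * |(M : ℝ)|) * B) :=
          mul_le_mul_of_nonneg_left h5 (norm_nonneg _)
      _ = (|(j : ℝ)| * ‖γ j‖) * (2 * |(M : ℝ)| * B) := by ring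
      _ ≤ ((1 + |(j : ℝ)|) * ‖γ j‖) * (2 * |(M : ℝ)| * B) := by
          apply mul_le_mul_of_nonneg_right _ (by positivity)
          nlinarith [norm_nonneg (γ j)]

end

/-- A set that is avoided by a fixed multiplier along infinitely many dilations is a set of
uniqueness. -/
theorem uniqueness {K : Set ℝ} {M : ℕ → ℤ} (hM : Tendsto M atTop atTop) {γ : ℤ → ℂ}
    (hγ : Summable fun j : ℤ => (1 + |(j : ℝ)|) * ‖γ j‖) (hγ0 : γ 0 ≠ 0)
    (hK : ∀ x ∈ K, ∀ k, lam γ (M k * x) = 0)
    {a b : ℝ} (hab : a < b) (hint : ∀ x ∈ Set.Ioo a b, ∀ m : ℤ, x + (m : ℝ) ∉ K)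
    {c : ℤ → ℂ} (hc : ∀ x : ℝ, (∀ m : ℤ, x + (m : ℝ) ∉ K) →
      Tendsto (fun N : ℕ => S c N x) atTop (𝓝 0)) (n : ℤ) : c n = 0 := by
  have hD := cantor_lebesgue hab fun x hx => hc x (hint x hx)
  have h1 : Tendsto (fun n : ℕ => c n) atTop (𝓝 0) := by
    rw [tendsto_zero_iff_norm_tendsto_zero]
    exact squeeze_zero (fun _ => norm_nonneg _) (fun n => le_D c n) hD
  have h2 : Tendsto (fun n : ℕ => c (-n)) atTop (𝓝 0) := by
    rw [tendsto_zero_iff_norm_tendsto_zero]
    exact squeeze_zero (fun _ => norm_nonneg _) (fun n => le_D' c n) hD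
  obtain ⟨B, hB⟩ : ∃ B, ∀ n : ℤ, ‖c n‖ ≤ B := by
    obtain ⟨B1, hB1⟩ := (Metric.isBounded_range_of_tendsto _ h1).exists_norm_le
    obtain ⟨B2, hB2⟩ := (Metric.isBounded_range_of_tendsto _ h2).exists_norm_le
    refine ⟨max B1 B2, fun n => ?_⟩
    obtain ⟨j, hj | hj⟩ := n.eq_nat_or_neg
    · subst hj
      exact (hB1 _ ⟨j, rfl⟩).trans (le_max_left _ _)
    · subst hj
      exact (hB2 _ ⟨j, rfl⟩).trans (le_max_right _ _)
  have hlam : ∀ (x : ℝ) (m : ℤ), lam γ (x + m) = lam γ x := by
    intro x m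
    unfold lam
    congr 1
    ext j
    have : E j (m : ℝ) = 1 := by
      rw [E]
      have : (2 * (Real.pi : ℂ) * Complex.I * (j : ℂ) * ((m : ℝ) : ℂ)) =
          ((j * m : ℤ) : ℂ) * (2 * Real.pi * Complex.I) := by
        push_cast
        ring
      rw [this, Complex.exp_int_mul_two_pi_mul_I]
    rw [E_add, this, mul_one]
  -- the formal products vanish
  have hP : ∀ k m, P γ c (M k) m = 0 := by
    intro k
    apply cantor (norm_P_le hγ hB (M k))
    intro x
    have h3 := tendsto_P hγ hB h1 h2 (M k) x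
    by_cases hx : ∀ m : ℤ, x + (m : ℝ) ∉ K
    · have h4 := h3.add ((hc x hx).const_mul (lam γ (M k * x)))
      rw [mul_zero, add_zero] at h4
      refine h4.congr fun N => ?_
      ring
    · push Not at hx
      obtain ⟨m, hm⟩ := hx
      have h4 : lam γ (M k * x) = 0 := by
        have h5 := hK _ hm k
        have h6 : (M k : ℝ) * (x + m) = M k * x + ((M k * m : ℤ) : ℝ) := by
          push_cast
          ring
        rwa [h6, hlam] at h5
      simp only [h4, zero_mul, sub_zero] at h3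
      exact h3
  -- pass to the limit
  have hlim : Tendsto (fun k => P γ c (M k) n) atTop (𝓝 (γ 0 * c n)) := by
    have h3 : γ 0 * c n = ∑' j : ℤ, if j = 0 then γ 0 * c n else 0 := by
      rw [tsum_ite_eq]
    rw [h3]
    unfold P
    apply tendsto_tsum_of_dominated_convergence (bound := fun j : ℤ => ‖γ j‖ * B)
      ((summable_norm_gamma hγ).mul_right B)
    · intro j
      split_ifs with hj
      · subst hj
        simp only [zero_mul, sub_zero]
        exact tendsto_const_nhds
      · have hcz : Tendsto (fun k => ‖c (n - j * M k)‖) atTop (𝓝 0) := by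
          have hDD : ∀ m : ℤ, ‖c m‖ ≤ D c m.natAbs := by
            intro m
            rcases Int.natAbs_eq m with h | h
            · conv_lhs => rw [h]
              exact le_D c _
            · conv_lhs => rw [h]
              exact le_D' c _
          apply squeeze_zero (fun _ => norm_nonneg _) (fun k => hDD _)
          apply hD.comp
          rw [tendsto_atTop]
          intro C
          filter_upwards [hM.eventually_ge_atTop ((C : ℤ) + |n|)] with k hk
          have h7 : |j * M k| ≥ C + |n| := by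
            rw [abs_mul]
            have h8 : 1 ≤ |j| := Int.one_le_abs hj
            have h9 : M k ≤ |M k| := le_abs_self _
            have h10 : 0 ≤ |M k| := abs_nonneg _
            nlinarith
          have h11 : |n - j * M k| ≥ |j * M k| - |n| := by
            have := abs_sub_abs_le_abs_sub (j * M k) n
            rw [abs_sub_comm] at this
            exact this
          have h12 : (C : ℤ) ≤ |n - j * M k| := by linarith
          rw [Int.abs_eq_natAbs] at h12
          exact_mod_cast h12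
        have h5 : Tendsto (fun k => c (n - j * M k)) atTop (𝓝 0) :=
          tendsto_zero_iff_norm_tendsto_zero.mpr hcz
        have h6 := h5.const_mul (γ j)
        rwa [mul_zero] at h6
    · refine Eventually.of_forall fun k j => ?_
      rw [norm_mul]
      exact mul_le_mul_of_nonneg_left (hB _) (norm_nonneg _)
  have h3 : Tendsto (fun k => P γ c (M k) n) atTop (𝓝 0) := by
    simp only [hP]
    exact tendsto_const_nhds
  have h4 := tendsto_nhds_unique hlim h3
  rcases mul_eq_zero.mp h4 with h5 | h5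
  · exact absurd h5 hγ0
  · exact h5

end Pool.Agent.Y249.SU
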